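import Mathlib

/-!
Core impossibility: a positive kernel of finite rank cannot produce the masses `(3 + cos (n+1))/8`.
-/

open MeasureTheory ProbabilityTheory Filter Topology

namespace Pool.Agent.MP_d5803c_pr

/-- bounded measurable -/
def BM {S E : Type*} [MeasurableSpace S] [NormedAddCommGroup E] [MeasurableSpace E] (f : S → E) : Prop :=
  Measurable f ∧ ∃ C : ℝ, ∀ x, ‖f x‖ ≤ C

section basics
variable {S : Type*} [MeasurableSpace S]

lemma BM.integrable {E : Type*} [NormedAddCommGroup E] [MeasurableSpace E] [BorelSpace E]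
    [SecondCountableTopology E] {f : S → E} (hf : BM f) (μ : Measure S) [IsFiniteMeasure μ] :
    Integrable f μ := by
  obtain ⟨hf, C, hC⟩ := hf
  exact Integrable.of_bound hf.aestronglyMeasurable C (Eventually.of_forall hC)

lemma BM.add {E : Type*} [NormedAddCommGroup E] [MeasurableSpace E] [BorelSpace E]
    [SecondCountableTopology E] {f g : S → E} (hf : BM f) (hg : BM g) : BM (fun x => f x + g x) := by
  obtain ⟨hf, C, hC⟩ := hf
  obtain ⟨hg, D, hD⟩ := hg
  exact ⟨hf.add hg, C + D, fun x => (norm_add_le _ _).trans (add_le_add (hC x) (hD x))⟩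

lemma BM.sub {E : Type*} [NormedAddCommGroup E] [MeasurableSpace E] [BorelSpace E]
    [SecondCountableTopology E] {f g : S → E} (hf : BM f) (hg : BM g) : BM (fun x => f x - g x) := by
  obtain ⟨hf, C, hC⟩ := hf
  obtain ⟨hg, D, hD⟩ := hg
  exact ⟨hf.sub hg, C + D, fun x => (norm_sub_le _ _).trans (add_le_add (hC x) (hD x))⟩

lemma BM.norm {f : S → ℂ} (hf : BM f) : BM (fun x => ‖f x‖) := by
  obtain ⟨hf, C, hC⟩ := hf
  exact ⟨hf.norm, C, fun x => by simpa using hC x⟩

lemma BM.const_mul {f : S → ℂ} (hf : BM f) (c : ℂ) : BM (fun x => c * f x) := by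
  obtain ⟨hf, C, hC⟩ := hf
  exact ⟨hf.const_mul c, ‖c‖ * C, fun x => by
    rw [norm_mul]; exact mul_le_mul_of_nonneg_left (hC x) (norm_nonneg c)⟩

lemma BM.const_mul_real {f : S → ℝ} (hf : BM f) (c : ℝ) : BM (fun x => c * f x) := by
  obtain ⟨hf, C, hC⟩ := hf
  exact ⟨hf.const_mul c, ‖c‖ * C, fun x => by
    rw [norm_mul]; exact mul_le_mul_of_nonneg_left (hC x) (norm_nonneg c)⟩

lemma BM.const {E : Type*} [NormedAddCommGroup E] [MeasurableSpace E] (c : E) :
    BM (fun _ : S => c) := ⟨measurable_const, ‖c‖, fun _ => le_rfl⟩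

lemma BM.ofReal {f : S → ℝ} (hf : BM f) : BM (fun x => (f x : ℂ)) := by
  obtain ⟨hf, C, hC⟩ := hf
  exact ⟨Complex.measurable_ofReal.comp hf, C, fun x => by simpa using hC x⟩

lemma BM.re {f : S → ℂ} (hf : BM f) : BM (fun x => (f x).re) := by
  obtain ⟨hf, C, hC⟩ := hf
  exact ⟨Complex.measurable_re.comp hf, C, fun x => by
    rw [Real.norm_eq_abs]; exact (Complex.abs_re_le_norm _).trans (hC x)⟩

lemma BM.finset_sum {E ι : Type*} [NormedAddCommGroup E] [MeasurableSpace E] [BorelSpace E]
    [SecondCountableTopology E] (s : Finset ι) {f : ι → S → E} (hf : ∀ i ∈ s, BM (f i)) :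
    BM (fun x => ∑ i ∈ s, f i x) := by
  classical
  induction s using Finset.induction_on with
  | empty => simpa using BM.const (S := S) (0 : E)
  | insert a s ha ih =>
    simp_rw [Finset.sum_insert ha]
    exact (hf a (Finset.mem_insert_self a s)).add (ih fun i hi => hf i (Finset.mem_insert_of_mem hi))

/-- If a finite measure is a real linear combination of finite measures on every measurable set, so
are its integrals. -/
lemma integral_of_real_comb {E : Type*} [NormedAddCommGroup E] [NormedSpace ℝ E] [MeasurableSpace E]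
    [BorelSpace E] [SecondCountableTopology E] {r : ℕ} (μ0 : Measure S) [IsFiniteMeasure μ0]
    (m : Fin r → Measure S) (hm : ∀ i, IsFiniteMeasure (m i)) (c : Fin r → ℝ)
    (h : ∀ B, MeasurableSet B → μ0.real B = ∑ i, c i * (m i).real B) {f : S → E} (hf : BM f) :
    ∫ x, f x ∂μ0 = ∑ i, c i • ∫ x, f x ∂(m i) := by
  have hfin1 : ∀ s : Finset (Fin r), IsFiniteMeasure (∑ i ∈ s, (Real.toNNReal (-c i)) • m i) := by
    intro s; infer_instance
  have hfin2 : ∀ s : Finset (Fin r), IsFiniteMeasure (∑ i ∈ s, (Real.toNNReal (c i)) • m i) := by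
    intro s; infer_instance
  have hmeas : μ0 + ∑ i, (Real.toNNReal (-c i)) • m i = ∑ i, (Real.toNNReal (c i)) • m i := by
    refine Measure.ext fun B hB => ?_
    have h1 : (μ0 + ∑ i, (Real.toNNReal (-c i)) • m i).real B
        = (∑ i, (Real.toNNReal (c i)) • m i).real B := by
      rw [measureReal_add_apply, h B hB]
      simp only [Measure.real, Measure.finsetSum_apply, Measure.smul_apply]
      rw [ENNReal.toReal_sum, ENNReal.toReal_sum, ← Finset.sum_add_distrib]
      · refine Finset.sum_congr rfl fun i _ => ?_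
        rw [ENNReal.smul_def, ENNReal.smul_def, smul_eq_mul, smul_eq_mul, ENNReal.toReal_mul,
          ENNReal.toReal_mul, ENNReal.coe_toReal, ENNReal.coe_toReal, ← add_mul]
        congr 1
        rw [Real.coe_toNNReal', Real.coe_toNNReal']
        rcases le_total 0 (c i) with hc | hc
        · rw [max_eq_right (by linarith), max_eq_left hc, add_zero]
        · rw [max_eq_left (by linarith), max_eq_right hc]; ring
      · intro i _
        exact ENNReal.mul_ne_top ENNReal.coe_ne_top (measure_ne_top _ _)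
      · intro i _
        exact ENNReal.mul_ne_top ENNReal.coe_ne_top (measure_ne_top _ _)
    exact (ENNReal.toReal_eq_toReal_iff' (measure_ne_top _ _) (measure_ne_top _ _)).mp h1
  have hint : ∀ i, Integrable f (m i) := fun i => hf.integrable (m i)
  have hsum : ∀ (d : Fin r → ℝ), ∫ x, f x ∂(∑ i, (Real.toNNReal (d i)) • m i)
      = ∑ i, (max (d i) 0) • ∫ x, f x ∂(m i) := by
    intro d
    rw [integral_finsetSum_measure (fun i _ => (hf.integrable _))]
    refine Finset.sum_congr rfl fun i _ => ?_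
    rw [integral_smul_nnreal_measure, NNReal.smul_def, Real.coe_toNNReal']
  have h2 : ∫ x, f x ∂(μ0 + ∑ i, (Real.toNNReal (-c i)) • m i)
      = ∫ x, f x ∂(∑ i, (Real.toNNReal (c i)) • m i) := by rw [hmeas]
  rw [integral_add_measure (hf.integrable _) (hf.integrable _), hsum, hsum] at h2
  have h3 : ∫ x, f x ∂μ0 = ∑ i, (max (c i) 0) • ∫ x, f x ∂(m i)
      - ∑ i, (max (-c i) 0) • ∫ x, f x ∂(m i) := by
    rw [← h2]; abel
  rw [h3, ← Finset.sum_sub_distrib]
  refine Finset.sum_congr rfl fun i _ => ?_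
  rw [← sub_smul]
  congr 1
  rcases le_total 0 (c i) with hc | hc
  · rw [max_eq_left hc, max_eq_right (by linarith), sub_zero]
  · rw [max_eq_right hc, max_eq_left (by linarith)]; ring

end basics

lemma exp_int_mul_I_ne_one (k : ℤ) (hk : k ≠ 0) : Complex.exp (k * Complex.I) ≠ 1 := by
  intro h
  rw [Complex.exp_eq_one_iff] at h
  obtain ⟨n, hn⟩ := h
  have h1 : (k : ℂ) = n * (2 * Real.pi) := by
    have := mul_right_cancel₀ Complex.I_ne_zero
      (show (k : ℂ) * Complex.I = (n * (2 * Real.pi)) * Complex.I by rw [hn]; ring)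
    exact this
  have h2 : (k : ℝ) = n * (2 * Real.pi) := by exact_mod_cast h1
  have hn0 : (n : ℝ) ≠ 0 := by
    intro h0
    rw [h0, zero_mul] at h2
    exact hk (by exact_mod_cast h2)
  have h3 : Real.pi = ((k : ℚ) / (2 * n) : ℚ) := by
    push_cast
    field_simp
    linarith
  exact irrational_pi ⟨_, h3.symm⟩

/-- The data of a sequence of finite measures driven by a positive kernel of finite rank. -/
structure Setup (S : Type*) [MeasurableSpace S] where
  K : S → Measure S
  finK : ∀ x, IsFiniteMeasure (K x)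
  r : ℕ
  w : Fin r → S → ℝ
  bmw : ∀ i, BM (w i)
  m : Fin r → Measure S
  finm : ∀ i, IsFiniteMeasure (m i)
  rep : ∀ x B, MeasurableSet B → (K x).real B = ∑ i, w i x * (m i).real B
  M : ℕ → Measure S
  finM : ∀ n, IsFiniteMeasure (M n)
  step : ∀ n B, MeasurableSet B → (M (n + 1)).real B = ∫ x, (K x).real B ∂(M n)
  mass : ∀ n, (M n).real Set.univ = (3 + Real.cos (n + 1)) / 8

namespace Setup
variable {S : Type*} [MeasurableSpace S] (s : Setup S)

instance (x : S) : IsFiniteMeasure (s.K x) := s.finK x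
instance (i : Fin s.r) : IsFiniteMeasure (s.m i) := s.finm i
instance (n : ℕ) : IsFiniteMeasure (s.M n) := s.finM n

section gen
variable {E : Type*} [NormedAddCommGroup E] [NormedSpace ℝ E] [MeasurableSpace E]
    [BorelSpace E] [SecondCountableTopology E] [CompleteSpace E]

/-- the operator -/
noncomputable def T (f : S → E) (x : S) : E := ∫ y, f y ∂(s.K x)

lemma T_eq {f : S → E} (hf : BM f) (x : S) : s.T f x = ∑ i, s.w i x • ∫ y, f y ∂(s.m i) :=
  integral_of_real_comb (s.K x) s.m s.finm (fun i => s.w i x) (s.rep x) hf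

lemma bm_T {f : S → E} (hf : BM f) : BM (s.T f) := by
  have h : s.T f = fun x => ∑ i, s.w i x • ∫ y, f y ∂(s.m i) := funext fun x => s.T_eq hf x
  rw [h]
  refine BM.finset_sum _ fun i _ => ?_
  obtain ⟨hw, C, hC⟩ := s.bmw i
  refine ⟨hw.smul_const _, C * ‖∫ y, f y ∂(s.m i)‖, fun x => ?_⟩
  rw [norm_smul]
  exact mul_le_mul_of_nonneg_right (hC x) (norm_nonneg _)

/-- coefficients of `M (n+1)` -/
noncomputable def b (n : ℕ) (i : Fin s.r) : ℝ := ∫ x, s.w i x ∂(s.M n)

lemma M_real (n : ℕ) (B : Set S) (hB : MeasurableSet B) :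
    (s.M (n + 1)).real B = ∑ i, s.b n i * (s.m i).real B := by
  rw [s.step n B hB]
  have h : (fun x => (s.K x).real B) = fun x => ∑ i, s.w i x * (s.m i).real B :=
    funext fun x => s.rep x B hB
  rw [h, integral_finsetSum]
  · refine Finset.sum_congr rfl fun i _ => ?_
    rw [integral_mul_const]
    rfl
  · intro i _
    exact ((s.bmw i).integrable _).mul_const _

lemma int_M {f : S → E} (hf : BM f) (n : ℕ) :
    ∫ x, f x ∂(s.M (n + 1)) = ∑ i, s.b n i • ∫ y, f y ∂(s.m i) :=
  integral_of_real_comb (s.M (n + 1)) s.m s.finm (fun i => s.b n i) (s.M_real n) hf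

lemma int_T {f : S → E} (hf : BM f) (n : ℕ) :
    ∫ x, s.T f x ∂(s.M n) = ∫ x, f x ∂(s.M (n + 1)) := by
  rw [s.int_M hf]
  have h : s.T f = fun x => ∑ i, s.w i x • ∫ y, f y ∂(s.m i) := funext fun x => s.T_eq hf x
  rw [h, integral_finsetSum]
  · refine Finset.sum_congr rfl fun i _ => ?_
    rw [integral_smul_const]
    rfl
  · intro i _
    exact ((s.bmw i).integrable _).smul_const _

end gen

lemma mass_le (n : ℕ) : (s.M n).real Set.univ ≤ 1 := by
  rw [s.mass n]
  have := Real.cos_le_one ((n : ℝ) + 1)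
  linarith

lemma norm_int_M_le {E : Type*} [NormedAddCommGroup E] [NormedSpace ℝ E] {f : S → E} {C : ℝ}
    (hC0 : 0 ≤ C) (hC : ∀ x, ‖f x‖ ≤ C) (n : ℕ) : ‖∫ x, f x ∂(s.M n)‖ ≤ C := by
  refine (norm_integral_le_of_norm_le_const (Eventually.of_forall hC)).trans ?_
  calc C * (s.M n).real Set.univ ≤ C * 1 := mul_le_mul_of_nonneg_left (s.mass_le n) hC0
    _ = C := mul_one C

lemma exists_bound : ∃ C : ℝ, 0 ≤ C ∧ ∀ n i, |s.b n i| ≤ C := by
  choose hw C hC using s.bmw
  refine ⟨∑ i, |C i|, Finset.sum_nonneg fun i _ => abs_nonneg _, fun n i => ?_⟩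
  have h1 : ‖∫ x, s.w i x ∂(s.M n)‖ ≤ |C i| :=
    s.norm_int_M_le (abs_nonneg _) (fun x => (hC i x).trans (le_abs_self _)) n
  calc |s.b n i| ≤ |C i| := h1
    _ ≤ ∑ i, |C i| := Finset.single_le_sum (f := fun i => |C i|) (fun i _ => abs_nonneg _)
        (Finset.mem_univ i)

end Setup

/-- subsequential Cesaro limits -/
structure Lim {S : Type*} [MeasurableSpace S] (s : Setup S) where
  ψ : ℕ → ℕ
  mono : StrictMono ψ
  β : Fin s.r → ℝ
  γ : Fin s.r → ℂ
  hβ : ∀ i, Tendsto (fun k => (1 / (ψ k : ℝ)) * ∑ n ∈ Finset.range (ψ k), s.b n i) atTop (𝓝 (β i))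
  hγ : ∀ i, Tendsto (fun k => (1 / (ψ k : ℂ)) * ∑ n ∈ Finset.range (ψ k),
    Complex.exp (-(n * Complex.I)) * s.b n i) atTop (𝓝 (γ i))

lemma exists_lim {S : Type*} [MeasurableSpace S] (s : Setup S) : Nonempty (Lim s) := by
  obtain ⟨C, hC0, hC⟩ := s.exists_bound
  let x : ℕ → (Fin s.r → ℝ) × (Fin s.r → ℂ) := fun N =>
    (fun i => (1 / (N : ℝ)) * ∑ n ∈ Finset.range N, s.b n i,
     fun i => (1 / (N : ℂ)) * ∑ n ∈ Finset.range N, Complex.exp (-(n * Complex.I)) * s.b n i)
  have hexp : ∀ n : ℕ, ‖Complex.exp (-(n * Complex.I))‖ = 1 := by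
    intro n
    have : -((n : ℂ) * Complex.I) = ((-(n : ℝ) : ℝ) : ℂ) * Complex.I := by push_cast; ring
    rw [this, Complex.norm_exp_ofReal_mul_I]
  have hx : ∀ N, x N ∈ Metric.closedBall (0 : (Fin s.r → ℝ) × (Fin s.r → ℂ)) C := by
    intro N
    rw [mem_closedBall_zero_iff, Prod.norm_def]
    refine max_le ?_ ?_
    · refine (pi_norm_le_iff_of_nonneg hC0).mpr fun i => ?_
      change ‖(1 / (N : ℝ)) * ∑ n ∈ Finset.range N, s.b n i‖ ≤ C
      rw [norm_mul]
      rcases Nat.eq_zero_or_pos N with rfl | hN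
      · simpa using hC0
      · have hN' : (0:ℝ) < N := by exact_mod_cast hN
        have h1 : ‖∑ n ∈ Finset.range N, s.b n i‖ ≤ N * C := by
          refine (norm_sum_le _ _).trans ?_
          calc ∑ n ∈ Finset.range N, ‖s.b n i‖ ≤ ∑ n ∈ Finset.range N, C :=
                Finset.sum_le_sum fun n _ => hC n i
            _ = N * C := by simp
        rw [Real.norm_eq_abs, abs_of_pos (by positivity)]
        calc 1 / (N:ℝ) * ‖∑ n ∈ Finset.range N, s.b n i‖ ≤ 1 / N * (N * C) :=
              mul_le_mul_of_nonneg_left h1 (by positivity)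
          _ = C := by field_simp
    · refine (pi_norm_le_iff_of_nonneg hC0).mpr fun i => ?_
      change ‖(1 / (N : ℂ)) * ∑ n ∈ Finset.range N, Complex.exp (-(n * Complex.I)) * s.b n i‖ ≤ C
      rw [norm_mul]
      rcases Nat.eq_zero_or_pos N with rfl | hN
      · simpa using hC0
      · have hN' : (0:ℝ) < N := by exact_mod_cast hN
        have h1 : ‖∑ n ∈ Finset.range N, Complex.exp (-(n * Complex.I)) * s.b n i‖ ≤ N * C := by
          refine (norm_sum_le _ _).trans ?_
          calc ∑ n ∈ Finset.range N, ‖Complex.exp (-(n * Complex.I)) * s.b n i‖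
              ≤ ∑ n ∈ Finset.range N, C := Finset.sum_le_sum fun n _ => by
                rw [norm_mul, hexp, one_mul, Complex.norm_real]
                exact hC n i
            _ = N * C := by simp
        rw [norm_div, norm_one, Complex.norm_natCast]
        calc 1 / (N:ℝ) * ‖∑ n ∈ Finset.range N, Complex.exp (-(n * Complex.I)) * s.b n i‖
            ≤ 1 / N * (N * C) := mul_le_mul_of_nonneg_left h1 (by positivity)
          _ = C := by field_simp
  obtain ⟨a, -, ψ, hψ, hlim⟩ := tendsto_subseq_of_bounded Metric.isBounded_closedBall hx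
  refine ⟨⟨ψ, hψ, a.1, a.2, fun i => ?_, fun i => ?_⟩⟩
  · exact ((continuous_apply i).tendsto _).comp ((continuous_fst.tendsto _).comp hlim)
  · exact ((continuous_apply i).tendsto _).comp ((continuous_snd.tendsto _).comp hlim)

end Pool.Agent.MP_d5803c_pr
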