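import Pool.Agent.Lib.MP_d5803c_pr.Core

open MeasureTheory ProbabilityTheory Filter Topology

namespace Pool.Agent.MP_d5803c_pr

namespace Lim
variable {S : Type*} [MeasurableSpace S] {s : Setup S} (l : Lim s)

/-- the limiting invariant functional -/
noncomputable def nu (g : S → ℝ) : ℝ := ∑ i, l.β i * ∫ y, g y ∂(s.m i)

/-- the limiting eigenfunctional -/
noncomputable def ka (f : S → ℂ) : ℂ := ∑ i, l.γ i * ∫ y, f y ∂(s.m i)

lemma tendsto_psi : Tendsto l.ψ atTop atTop := l.mono.tendsto_atTop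

lemma tendsto_nu {g : S → ℝ} (hg : BM g) :
    Tendsto (fun k => (1 / (l.ψ k : ℝ)) * ∑ n ∈ Finset.range (l.ψ k), ∫ x, g x ∂(s.M (n + 1))) atTop
      (𝓝 (l.nu g)) := by
  have h : ∀ k, (1 / (l.ψ k : ℝ)) * ∑ n ∈ Finset.range (l.ψ k), ∫ x, g x ∂(s.M (n + 1))
      = ∑ i, ((1 / (l.ψ k : ℝ)) * ∑ n ∈ Finset.range (l.ψ k), s.b n i) * ∫ y, g y ∂(s.m i) := by
    intro k
    simp_rw [s.int_M hg, smul_eq_mul]
    rw [Finset.sum_comm, Finset.mul_sum]
    refine Finset.sum_congr rfl fun i _ => ?_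
    rw [← Finset.sum_mul]
    ring
  simp_rw [h]
  exact tendsto_finsetSum _ fun i _ => (l.hβ i).mul_const _

lemma tendsto_ka {f : S → ℂ} (hf : BM f) :
    Tendsto (fun k => (1 / (l.ψ k : ℂ)) * ∑ n ∈ Finset.range (l.ψ k),
      Complex.exp (-(n * Complex.I)) * ∫ x, f x ∂(s.M (n + 1))) atTop (𝓝 (l.ka f)) := by
  have h : ∀ k, (1 / (l.ψ k : ℂ)) * ∑ n ∈ Finset.range (l.ψ k),
      Complex.exp (-(n * Complex.I)) * ∫ x, f x ∂(s.M (n + 1))
      = ∑ i, ((1 / (l.ψ k : ℂ)) * ∑ n ∈ Finset.range (l.ψ k), Complex.exp (-(n * Complex.I)) * s.b n i)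
          * ∫ y, f y ∂(s.m i) := by
    intro k
    simp_rw [s.int_M hf, Complex.real_smul, Finset.mul_sum]
    rw [Finset.sum_comm]
    refine Finset.sum_congr rfl fun i _ => ?_
    rw [Finset.sum_mul]
    refine Finset.sum_congr rfl fun n _ => ?_
    ring
  simp_rw [h]
  exact tendsto_finsetSum _ fun i _ => (l.hγ i).mul_const _

lemma tendsto_inv_psi : Tendsto (fun k => (1 / (l.ψ k : ℝ))) atTop (𝓝 0) := by
  simp_rw [one_div]
  exact tendsto_inv_atTop_zero.comp (tendsto_natCast_atTop_atTop.comp l.tendsto_psi)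

lemma tendsto_bdd {a : ℕ → ℂ} {C : ℝ} (hC : ∀ n, ‖a n‖ ≤ C) :
    Tendsto (fun k => (1 / (l.ψ k : ℂ)) * a k) atTop (𝓝 0) := by
  rw [tendsto_zero_iff_norm_tendsto_zero]
  have h2 : Tendsto (fun k => (1 / (l.ψ k : ℝ)) * C) atTop (𝓝 0) := by
    simpa using l.tendsto_inv_psi.mul_const C
  refine squeeze_zero (fun k => norm_nonneg _) (fun k => ?_) h2
  rw [norm_mul, norm_div, norm_one, Complex.norm_natCast]
  exact mul_le_mul_of_nonneg_left (hC k) (by positivity)

lemma tendsto_bdd_real {a : ℕ → ℝ} {C : ℝ} (hC : ∀ n, ‖a n‖ ≤ C) :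
    Tendsto (fun k => (1 / (l.ψ k : ℝ)) * a k) atTop (𝓝 0) := by
  rw [tendsto_zero_iff_norm_tendsto_zero]
  have h2 : Tendsto (fun k => (1 / (l.ψ k : ℝ)) * C) atTop (𝓝 0) := by
    simpa using l.tendsto_inv_psi.mul_const C
  refine squeeze_zero (fun k => norm_nonneg _) (fun k => ?_) h2
  rw [norm_mul, norm_div, norm_one, Real.norm_natCast]
  exact mul_le_mul_of_nonneg_left (hC k) (by positivity)

lemma nu_nonneg {g : S → ℝ} (hg : BM g) (h0 : ∀ x, 0 ≤ g x) : 0 ≤ l.nu g := by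
  refine ge_of_tendsto' (l.tendsto_nu hg) fun k => ?_
  refine mul_nonneg (by positivity) (Finset.sum_nonneg fun n _ => integral_nonneg h0)

lemma nu_add {g h : S → ℝ} (hg : BM g) (hh : BM h) : l.nu (fun x => g x + h x) = l.nu g + l.nu h := by
  unfold nu
  rw [← Finset.sum_add_distrib]
  refine Finset.sum_congr rfl fun i _ => ?_
  rw [integral_add (hg.integrable _) (hh.integrable _), mul_add]

lemma nu_sub {g h : S → ℝ} (hg : BM g) (hh : BM h) : l.nu (fun x => g x - h x) = l.nu g - l.nu h := by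
  unfold nu
  rw [← Finset.sum_sub_distrib]
  refine Finset.sum_congr rfl fun i _ => ?_
  rw [integral_sub (hg.integrable _) (hh.integrable _), mul_sub]

lemma nu_const_mul (c : ℝ) (g : S → ℝ) : l.nu (fun x => c * g x) = c * l.nu g := by
  unfold nu
  rw [Finset.mul_sum]
  refine Finset.sum_congr rfl fun i _ => ?_
  rw [integral_const_mul]
  ring

lemma nu_mono {g h : S → ℝ} (hg : BM g) (hh : BM h) (hle : ∀ x, g x ≤ h x) : l.nu g ≤ l.nu h := by
  have := l.nu_nonneg (hh.sub hg) (fun x => sub_nonneg.mpr (hle x))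
  rw [l.nu_sub hh hg] at this
  linarith

lemma nu_T {g : S → ℝ} (hg : BM g) : l.nu (s.T g) = l.nu g := by
  have h1 := l.tendsto_nu (s.bm_T hg)
  simp_rw [s.int_T hg] at h1
  obtain ⟨hgm, C, hC⟩ := id hg
  have hC' : ∀ x, ‖g x‖ ≤ |C| := fun x => (hC x).trans (le_abs_self _)
  have h2 : ∀ k, (1 / (l.ψ k : ℝ)) * ∑ n ∈ Finset.range (l.ψ k), ∫ x, g x ∂(s.M (n + 1 + 1))
      = (1 / (l.ψ k : ℝ)) * ∑ n ∈ Finset.range (l.ψ k), ∫ x, g x ∂(s.M (n + 1))
        + (1 / (l.ψ k : ℝ)) * (∫ x, g x ∂(s.M (l.ψ k + 1)) - ∫ x, g x ∂(s.M 1)) := by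
    intro k
    rw [← mul_add]
    congr 1
    have := Finset.sum_range_succ (fun n => ∫ x, g x ∂(s.M (n + 1))) (l.ψ k)
    have h3 := Finset.sum_range_succ' (fun n => ∫ x, g x ∂(s.M (n + 1))) (l.ψ k)
    simp only [zero_add] at h3
    linarith
  simp_rw [h2] at h1
  have h4 : Tendsto (fun k => (1 / (l.ψ k : ℝ)) * (∫ x, g x ∂(s.M (l.ψ k + 1)) - ∫ x, g x ∂(s.M 1)))
      atTop (𝓝 0) := by
    refine l.tendsto_bdd_real (C := |C| + |C|) fun k => ?_
    refine (norm_sub_le _ _).trans (add_le_add ?_ ?_)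
    · exact s.norm_int_M_le (abs_nonneg _) hC' _
    · exact s.norm_int_M_le (abs_nonneg _) hC' _
  have h5 := (l.tendsto_nu hg).add h4
  rw [add_zero] at h5
  exact tendsto_nhds_unique h1 h5

lemma norm_exp_neg (n : ℕ) : ‖Complex.exp (-(n * Complex.I))‖ = 1 := by
  have : -((n : ℂ) * Complex.I) = ((-(n : ℝ) : ℝ) : ℂ) * Complex.I := by push_cast; ring
  rw [this, Complex.norm_exp_ofReal_mul_I]

lemma ka_T {f : S → ℂ} (hf : BM f) : l.ka (s.T f) = Complex.exp Complex.I * l.ka f := by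
  have h1 := l.tendsto_ka (s.bm_T hf)
  simp_rw [s.int_T hf] at h1
  obtain ⟨hfm, C, hC⟩ := id hf
  have hC' : ∀ x, ‖f x‖ ≤ |C| := fun x => (hC x).trans (le_abs_self _)
  have h2 : ∀ k, (1 / (l.ψ k : ℂ)) * ∑ n ∈ Finset.range (l.ψ k),
      Complex.exp (-(n * Complex.I)) * ∫ x, f x ∂(s.M (n + 1 + 1))
      = Complex.exp Complex.I * ((1 / (l.ψ k : ℂ)) * ∑ n ∈ Finset.range (l.ψ k),
          Complex.exp (-(n * Complex.I)) * ∫ x, f x ∂(s.M (n + 1)))
        + (1 / (l.ψ k : ℂ)) * (Complex.exp Complex.I *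
          (Complex.exp (-(l.ψ k * Complex.I)) * ∫ x, f x ∂(s.M (l.ψ k + 1)) - ∫ x, f x ∂(s.M 1))) := by
    intro k
    have h3 := Finset.sum_range_succ
      (fun n : ℕ => Complex.exp (-(n * Complex.I)) * ∫ x, f x ∂(s.M (n + 1))) (l.ψ k)
    have h4 := Finset.sum_range_succ'
      (fun n : ℕ => Complex.exp (-(n * Complex.I)) * ∫ x, f x ∂(s.M (n + 1))) (l.ψ k)
    rw [h3] at h4
    have h5 : ∑ n ∈ Finset.range (l.ψ k),
        Complex.exp (-(n * Complex.I)) * ∫ x, f x ∂(s.M (n + 1 + 1))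
        = Complex.exp Complex.I * ∑ n ∈ Finset.range (l.ψ k),
          Complex.exp (-(((n + 1 : ℕ) : ℂ) * Complex.I)) * ∫ x, f x ∂(s.M (n + 1 + 1)) := by
      rw [Finset.mul_sum]
      refine Finset.sum_congr rfl fun n _ => ?_
      rw [← mul_assoc, ← Complex.exp_add]
      congr 2
      push_cast
      ring
    rw [h5]
    simp only [Nat.cast_zero, zero_mul, neg_zero, Complex.exp_zero, one_mul, zero_add] at h4
    have h6 : ∑ n ∈ Finset.range (l.ψ k),
          Complex.exp (-(((n + 1 : ℕ) : ℂ) * Complex.I)) * ∫ x, f x ∂(s.M (n + 1 + 1))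
        = ∑ n ∈ Finset.range (l.ψ k), Complex.exp (-(n * Complex.I)) * ∫ x, f x ∂(s.M (n + 1))
          + (Complex.exp (-(l.ψ k * Complex.I)) * ∫ x, f x ∂(s.M (l.ψ k + 1))
            - ∫ x, f x ∂(s.M 1)) := by
      linear_combination -h4
    rw [h6]
    ring
  simp_rw [h2] at h1
  have h4 : Tendsto (fun k => (1 / (l.ψ k : ℂ)) * (Complex.exp Complex.I *
          (Complex.exp (-(l.ψ k * Complex.I)) * ∫ x, f x ∂(s.M (l.ψ k + 1)) - ∫ x, f x ∂(s.M 1))))
      atTop (𝓝 0) := by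
    refine l.tendsto_bdd (C := |C| + |C|) fun k => ?_
    rw [norm_mul, Complex.norm_exp]
    simp only [Complex.I_re, Real.exp_zero, one_mul]
    refine (norm_sub_le _ _).trans (add_le_add ?_ ?_)
    · rw [norm_mul, norm_exp_neg, one_mul]
      exact s.norm_int_M_le (abs_nonneg _) hC' _
    · exact s.norm_int_M_le (abs_nonneg _) hC' _
  have h5 := ((l.tendsto_ka hf).const_mul (Complex.exp Complex.I)).add h4
  rw [add_zero] at h5
  exact tendsto_nhds_unique h1 h5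

lemma ka_le {f : S → ℂ} (hf : BM f) : ‖l.ka f‖ ≤ l.nu (fun x => ‖f x‖) := by
  refine le_of_tendsto_of_tendsto' (l.tendsto_ka hf).norm (l.tendsto_nu hf.norm) fun k => ?_
  rw [norm_mul, norm_div, norm_one, Complex.norm_natCast]
  refine mul_le_mul_of_nonneg_left ?_ (by positivity)
  refine (norm_sum_le _ _).trans (Finset.sum_le_sum fun n _ => ?_)
  rw [norm_mul, norm_exp_neg, one_mul]
  exact norm_integral_le_integral_norm _

lemma geom_bound (z : ℂ) (hz : ‖z‖ = 1) (hz1 : z ≠ 1) (N : ℕ) :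
    ‖∑ n ∈ Finset.range N, z ^ n‖ ≤ 2 / ‖z - 1‖ := by
  rw [geom_sum_eq hz1, norm_div]
  have : 0 < ‖z - 1‖ := norm_pos_iff.mpr (sub_ne_zero.mpr hz1)
  gcongr
  refine (norm_sub_le _ _).trans ?_
  rw [norm_pow, hz, one_pow, norm_one]
  norm_num

lemma ka_one : l.ka (fun _ => 1) = Complex.exp (2 * Complex.I) / 16 := by
  have h1 := l.tendsto_ka (BM.const (S := S) (1 : ℂ))
  have hm : ∀ n, ∫ x, (1 : ℂ) ∂(s.M n) = ((3 + Real.cos (n + 1)) / 8 : ℝ) := by
    intro n
    rw [integral_const, s.mass n, Complex.real_smul, mul_one]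
  simp_rw [hm] at h1
  set z1 : ℂ := Complex.exp (-Complex.I) with hz1
  set z2 : ℂ := Complex.exp (-(2 * Complex.I)) with hz2
  have n1 : ‖z1‖ = 1 := by rw [hz1, Complex.norm_exp]; simp
  have n2 : ‖z2‖ = 1 := by rw [hz2, Complex.norm_exp]; simp
  have ne1 : z1 ≠ 1 := by
    have := exp_int_mul_I_ne_one (-1) (by norm_num)
    rw [hz1]; convert this using 2; push_cast; ring
  have ne2 : z2 ≠ 1 := by
    have := exp_int_mul_I_ne_one (-2) (by norm_num)
    rw [hz2]; convert this using 2; push_cast; ring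
  have hterm : ∀ n : ℕ, Complex.exp (-(n * Complex.I)) *
      (((3 + Real.cos ((n + 1 : ℕ) + 1)) / 8 : ℝ) : ℂ)
      = (3 / 8) * z1 ^ n + Complex.exp (2 * Complex.I) / 16
        + (Complex.exp (-(2 * Complex.I)) / 16) * z2 ^ n := by
    intro n
    rw [hz1, hz2, ← Complex.exp_nat_mul, ← Complex.exp_nat_mul]
    push_cast
    rw [Complex.cos]
    have e1 : Complex.exp (((n:ℂ) + 1 + 1) * Complex.I) = Complex.exp (n * Complex.I) *
        Complex.exp (2 * Complex.I) := by rw [← Complex.exp_add]; congr 1; ring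
    have e2 : Complex.exp (-((n:ℂ) + 1 + 1) * Complex.I) = Complex.exp (-(n * Complex.I)) *
        Complex.exp (-(2 * Complex.I)) := by rw [← Complex.exp_add]; congr 1; ring
    have e3 : Complex.exp ((n:ℂ) * -(2 * Complex.I)) = Complex.exp (-(n * Complex.I)) *
        Complex.exp (-(n * Complex.I)) := by rw [← Complex.exp_add]; congr 1; ring
    have e4 : Complex.exp (-(n * Complex.I)) * Complex.exp (n * Complex.I) = 1 := by
      rw [← Complex.exp_add]; simp
    rw [e1, e2, e3, show (n:ℂ) * -Complex.I = -(n * Complex.I) by ring]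
    linear_combination (Complex.exp (2 * Complex.I) / 16) * e4
  have hsum : ∀ k, (1 / (l.ψ k : ℂ)) * ∑ n ∈ Finset.range (l.ψ k), Complex.exp (-(n * Complex.I)) *
      (((3 + Real.cos ((n + 1 : ℕ) + 1)) / 8 : ℝ) : ℂ)
      = (1 / (l.ψ k : ℂ)) * ((3 / 8) * ∑ n ∈ Finset.range (l.ψ k), z1 ^ n)
        + (1 / (l.ψ k : ℂ)) * (l.ψ k * (Complex.exp (2 * Complex.I) / 16))
        + (1 / (l.ψ k : ℂ)) * ((Complex.exp (-(2 * Complex.I)) / 16) *
            ∑ n ∈ Finset.range (l.ψ k), z2 ^ n) := by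
    intro k
    simp_rw [hterm]
    rw [Finset.sum_add_distrib, Finset.sum_add_distrib, ← Finset.mul_sum, ← Finset.mul_sum,
      Finset.sum_const, Finset.card_range, nsmul_eq_mul]
    ring
  have h2 : Tendsto (fun k => (1 / (l.ψ k : ℂ)) * ∑ n ∈ Finset.range (l.ψ k),
      Complex.exp (-(n * Complex.I)) * (((3 + Real.cos ((n + 1 : ℕ) + 1)) / 8 : ℝ) : ℂ)) atTop
      (𝓝 (0 + Complex.exp (2 * Complex.I) / 16 + 0)) := by
    simp_rw [hsum]
    refine (Tendsto.add ?_ ?_).add ?_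
    · refine l.tendsto_bdd (C := 3 / 8 * (2 / ‖z1 - 1‖)) fun k => ?_
      rw [norm_mul]
      have := geom_bound z1 n1 ne1 (l.ψ k)
      have h38 : ‖(3 / 8 : ℂ)‖ = 3 / 8 := by norm_num
      rw [h38]
      gcongr
    · have hev : (fun k => (1 / (l.ψ k : ℂ)) * (l.ψ k * (Complex.exp (2 * Complex.I) / 16)))
          =ᶠ[atTop] fun _ => Complex.exp (2 * Complex.I) / 16 := by
        filter_upwards [l.tendsto_psi.eventually_ge_atTop 1] with k hk
        have : (l.ψ k : ℂ) ≠ 0 := by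
          have : l.ψ k ≠ 0 := by omega
          exact_mod_cast this
        field_simp
      exact tendsto_const_nhds.congr' hev.symm
    · refine l.tendsto_bdd (C := ‖Complex.exp (-(2 * Complex.I)) / 16‖ * (2 / ‖z2 - 1‖)) fun k => ?_
      rw [norm_mul]
      have := geom_bound z2 n2 ne2 (l.ψ k)
      gcongr
  rw [zero_add, add_zero] at h2
  exact tendsto_nhds_unique h1 h2

lemma ka_one_ne : l.ka (fun _ => 1) ≠ 0 := by
  rw [l.ka_one]
  exact div_ne_zero (Complex.exp_ne_zero _) (by norm_num)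

end Lim

end Pool.Agent.MP_d5803c_pr
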