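import Pool.Agent.Lib.MP_d5803c_pr.Core2

open MeasureTheory ProbabilityTheory Filter Topology

namespace Pool.Agent.MP_d5803c_pr

namespace Lim
variable {S : Type*} [MeasurableSpace S] {s : Setup S} (l : Lim s)

/-- the function with coefficient vector `c` -/
noncomputable def io (s : Setup S) (c : Fin s.r → ℂ) (x : S) : ℂ := ∑ k, c k * (s.w k x : ℂ)

/-- the coefficient vector of `T f` -/
noncomputable def vec (s : Setup S) (f : S → ℂ) : Fin s.r → ℂ := fun i => ∫ y, f y ∂(s.m i)

lemma bm_io (c : Fin s.r → ℂ) : BM (io s c) :=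
  BM.finset_sum _ fun k _ => ((s.bmw k).ofReal).const_mul (c k)

lemma T_eq_io {f : S → ℂ} (hf : BM f) : s.T f = io s (vec s f) := by
  funext x
  rw [s.T_eq hf]
  unfold io vec
  refine Finset.sum_congr rfl fun i _ => ?_
  rw [Complex.real_smul, mul_comm]

lemma io_add (c d : Fin s.r → ℂ) (x : S) : io s (c + d) x = io s c x + io s d x := by
  unfold io
  rw [← Finset.sum_add_distrib]
  refine Finset.sum_congr rfl fun i _ => ?_
  rw [Pi.add_apply, add_mul]

lemma io_smul (a : ℂ) (c : Fin s.r → ℂ) (x : S) : io s (a • c) x = a * io s c x := by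
  unfold io
  rw [Finset.mul_sum]
  refine Finset.sum_congr rfl fun i _ => ?_
  rw [Pi.smul_apply, smul_eq_mul, mul_assoc]

lemma io_sub (c d : Fin s.r → ℂ) (x : S) : io s (c - d) x = io s c x - io s d x := by
  unfold io
  rw [← Finset.sum_sub_distrib]
  refine Finset.sum_congr rfl fun i _ => ?_
  rw [Pi.sub_apply, sub_mul]

/-- `T` in coordinates -/
noncomputable def Nmap (s : Setup S) : (Fin s.r → ℂ) →ₗ[ℂ] (Fin s.r → ℂ) where
  toFun c := vec s (io s c)
  map_add' c d := by
    funext i
    unfold vec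
    rw [Pi.add_apply, ← integral_add ((bm_io c).integrable _) ((bm_io d).integrable _)]
    exact integral_congr_ae (Eventually.of_forall fun x => io_add c d x)
  map_smul' a c := by
    funext i
    unfold vec
    rw [Pi.smul_apply, RingHom.id_apply, smul_eq_mul, ← integral_const_mul]
    exact integral_congr_ae (Eventually.of_forall fun x => io_smul a c x)

lemma io_Nmap (c : Fin s.r → ℂ) : io s (Nmap s c) = s.T (io s c) := (T_eq_io (bm_io c)).symm

lemma norm_T_le {f : S → ℂ} (x : S) : ‖s.T f x‖ ≤ s.T (fun y => ‖f y‖) x :=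
  norm_integral_le_integral_norm _

lemma nu_norm_T_le {f : S → ℂ} (hf : BM f) : l.nu (fun x => ‖s.T f x‖) ≤ l.nu (fun x => ‖f x‖) := by
  calc l.nu (fun x => ‖s.T f x‖) ≤ l.nu (s.T (fun y => ‖f y‖)) :=
        l.nu_mono (s.bm_T hf).norm (s.bm_T hf.norm) fun x => norm_T_le x
    _ = l.nu (fun x => ‖f x‖) := l.nu_T hf.norm

lemma nu_norm_nonneg {f : S → ℂ} (hf : BM f) : 0 ≤ l.nu (fun x => ‖f x‖) :=
  l.nu_nonneg hf.norm fun x => norm_nonneg _

/-- coefficient vectors of null functions -/
noncomputable def null : Submodule ℂ (Fin s.r → ℂ) where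
  carrier := {c | l.nu (fun x => ‖io s c x‖) = 0}
  zero_mem' := by
    have : (fun x => ‖io s (0 : Fin s.r → ℂ) x‖) = fun _ => (0:ℝ) := by
      funext x; simp [io]
    rw [Set.mem_ofPred_eq, this]
    simp [nu]
  add_mem' := by
    intro c d hc hd
    rw [Set.mem_ofPred_eq] at *
    refine le_antisymm ?_ (l.nu_norm_nonneg (bm_io _))
    calc l.nu (fun x => ‖io s (c + d) x‖) ≤ l.nu (fun x => ‖io s c x‖ + ‖io s d x‖) :=
          l.nu_mono (bm_io _).norm ((bm_io c).norm.add (bm_io d).norm) fun x => by
            rw [io_add]; exact norm_add_le _ _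
      _ = 0 := by rw [l.nu_add (bm_io c).norm (bm_io d).norm, hc, hd, add_zero]
  smul_mem' := by
    intro a c hc
    rw [Set.mem_ofPred_eq] at *
    have : (fun x => ‖io s (a • c) x‖) = fun x => ‖a‖ * ‖io s c x‖ := by
      funext x; rw [io_smul, norm_mul]
    rw [this, l.nu_const_mul, hc, mul_zero]

lemma mem_null (c : Fin s.r → ℂ) : c ∈ l.null ↔ l.nu (fun x => ‖io s c x‖) = 0 := Iff.rfl

lemma null_le : l.null ≤ l.null.comap (Nmap s) := by
  intro c hc
  rw [Submodule.mem_comap, mem_null, io_Nmap]
  rw [mem_null] at hc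
  refine le_antisymm ?_ (l.nu_norm_nonneg (s.bm_T (bm_io c)))
  rw [← hc]
  exact l.nu_norm_T_le (bm_io c)

/-- the induced operator on the quotient -/
noncomputable def Nbar : ((Fin s.r → ℂ) ⧸ l.null) →ₗ[ℂ] ((Fin s.r → ℂ) ⧸ l.null) :=
  l.null.mapQ l.null (Nmap s) l.null_le

/-- `ka` in coordinates -/
noncomputable def kaLin : (Fin s.r → ℂ) →ₗ[ℂ] ℂ where
  toFun c := l.ka (io s c)
  map_add' c d := by
    unfold ka
    rw [← Finset.sum_add_distrib]
    refine Finset.sum_congr rfl fun i _ => ?_
    rw [← mul_add, ← integral_add ((bm_io c).integrable _) ((bm_io d).integrable _)]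
    congr 1
    exact integral_congr_ae (Eventually.of_forall fun x => io_add c d x)
  map_smul' a c := by
    unfold ka
    rw [RingHom.id_apply, smul_eq_mul, Finset.mul_sum]
    refine Finset.sum_congr rfl fun i _ => ?_
    have h : ∫ y, io s (a • c) y ∂(s.m i) = a * ∫ y, io s c y ∂(s.m i) := by
      rw [← integral_const_mul]
      exact integral_congr_ae (Eventually.of_forall fun x => io_smul a c x)
    rw [h]
    ring

lemma null_le_ker : l.null ≤ LinearMap.ker l.kaLin := by
  intro c hc
  rw [mem_null] at hc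
  rw [LinearMap.mem_ker]
  have := l.ka_le (bm_io c)
  rw [hc] at this
  exact norm_le_zero_iff.mp this

lemma exists_eigen : ∃ c : Fin s.r → ℂ, c ∉ l.null ∧
    Nmap s c - Complex.exp Complex.I • c ∈ l.null := by
  by_contra hcon
  push Not at hcon
  set G : ((Fin s.r → ℂ) ⧸ l.null) →ₗ[ℂ] ((Fin s.r → ℂ) ⧸ l.null) :=
    l.Nbar - Complex.exp Complex.I • LinearMap.id with hG
  have hGmk : ∀ c, G (l.null.mkQ c) = l.null.mkQ (Nmap s c - Complex.exp Complex.I • c) := by
    intro c
    rw [hG, LinearMap.sub_apply, LinearMap.smul_apply, LinearMap.id_apply, map_sub, map_smul]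
    rfl
  have hinj : Function.Injective G := by
    rw [← LinearMap.ker_eq_bot, LinearMap.ker_eq_bot']
    intro v hv
    obtain ⟨c, rfl⟩ := l.null.mkQ_surjective v
    rw [hGmk] at hv
    have h1 : Nmap s c - Complex.exp Complex.I • c ∈ l.null := by
      rw [← Submodule.ker_mkQ l.null, LinearMap.mem_ker]; exact hv
    by_contra hne
    have h2 : c ∉ l.null := by
      intro hc
      apply hne
      rw [← LinearMap.mem_ker, Submodule.ker_mkQ]
      exact hc
    exact hcon c h2 h1
  have hsurj : Function.Surjective G := LinearMap.injective_iff_surjective.mp hinj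
  have hzero : ∀ v, l.null.liftQ l.kaLin l.null_le_ker v = 0 := by
    intro v
    obtain ⟨u, rfl⟩ := hsurj v
    obtain ⟨c, rfl⟩ := l.null.mkQ_surjective u
    rw [hGmk, Submodule.mkQ_apply, Submodule.liftQ_apply, map_sub, map_smul]
    change l.ka (io s (Nmap s c)) - Complex.exp Complex.I • l.ka (io s c) = 0
    rw [io_Nmap, l.ka_T (bm_io c), smul_eq_mul, sub_self]
  have hone := hzero (l.null.mkQ (vec s (fun _ => 1)))
  rw [Submodule.mkQ_apply, Submodule.liftQ_apply] at hone
  change l.ka (io s (vec s (fun _ => 1))) = 0 at hone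
  rw [← T_eq_io (BM.const (1:ℂ)), l.ka_T (BM.const (1:ℂ))] at hone
  rcases mul_eq_zero.mp hone with h | h
  · exact Complex.exp_ne_zero _ h
  · exact l.ka_one_ne h

/-- The functional `nu` charges `{g > 0}` only if `nu g > 0`. -/
lemma nu_support {g : S → ℝ} (hg : BM g) (h0 : ∀ x, 0 ≤ g x) (hz : l.nu g = 0) :
    l.nu (Set.indicator {x | 0 < g x} fun _ => 1) = 0 := by
  obtain ⟨hgm, C, hC⟩ := id hg
  let A : ℕ → Set S := fun k => {x | 1 / ((k : ℝ) + 1) < g x}
  have hA : ∀ k, MeasurableSet (A k) := fun k => measurableSet_lt measurable_const hgm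
  have hAmono : Monotone A := by
    intro j k hjk x hx
    have hx' : 1 / ((j:ℝ) + 1) < g x := hx
    refine lt_of_le_of_lt ?_ hx'
    exact one_div_le_one_div_of_le (by positivity) (by exact_mod_cast Nat.succ_le_succ hjk)
  have hAU : ⋃ k, A k = {x | 0 < g x} := by
    ext x
    simp only [Set.mem_iUnion, Set.mem_ofPred_eq, A]
    constructor
    · rintro ⟨k, hk⟩
      exact lt_trans (by positivity) hk
    · intro hx
      exact exists_nat_one_div_lt hx
  have hbmi : ∀ B : Set S, MeasurableSet B → BM (Set.indicator B fun _ => (1:ℝ)) := by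
    intro B hB
    refine ⟨measurable_const.indicator hB, 1, fun x => ?_⟩
    by_cases hx : x ∈ B
    · simp [hx]
    · simp [hx]
  have hk : ∀ k, l.nu (Set.indicator (A k) fun _ => 1) = 0 := by
    intro k
    refine le_antisymm ?_ (l.nu_nonneg (hbmi _ (hA k)) fun x => ?_)
    · calc l.nu (Set.indicator (A k) fun _ => 1) ≤ l.nu (fun x => ((k:ℝ) + 1) * g x) := by
            refine l.nu_mono (hbmi _ (hA k)) (hg.const_mul_real _) fun x => ?_
            by_cases hx : x ∈ A k
            · rw [Set.indicator_of_mem hx]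
              have : 1 / ((k:ℝ) + 1) < g x := hx
              rw [div_lt_iff₀ (by positivity)] at this
              linarith
            · rw [Set.indicator_of_notMem hx]
              exact mul_nonneg (by positivity) (h0 x)
        _ = 0 := by rw [l.nu_const_mul, hz, mul_zero]
    · exact Set.indicator_nonneg (fun _ _ => zero_le_one) x
  have hlim : Tendsto (fun k => l.nu (Set.indicator (A k) fun _ => 1)) atTop
      (𝓝 (l.nu (Set.indicator {x | 0 < g x} fun _ => 1))) := by
    unfold nu
    refine tendsto_finsetSum _ fun i _ => ?_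
    refine Tendsto.const_mul _ ?_
    have e : ∀ B : Set S, MeasurableSet B →
        ∫ y, Set.indicator B (fun _ => (1:ℝ)) y ∂(s.m i) = (s.m i).real B := by
      intro B hB
      rw [integral_indicator hB]
      simp
    simp_rw [e _ (hA _)]
    rw [e _ (measurableSet_lt measurable_const hgm), ← hAU]
    exact (ENNReal.tendsto_toReal (measure_ne_top _ _)).comp
      (tendsto_measure_iUnion_atTop hAmono)
  simp_rw [hk] at hlim
  exact (tendsto_nhds_unique hlim tendsto_const_nhds)

/-- the functions `|f| (f/|f|)^k` -/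
noncomputable def pw (f : S → ℂ) (k : ℕ) (x : S) : ℂ := (‖f x‖ : ℂ) * (f x / ‖f x‖) ^ k

omit [MeasurableSpace S] in
lemma norm_pw (f : S → ℂ) (k : ℕ) (x : S) : ‖pw f k x‖ = ‖f x‖ := by
  unfold pw
  by_cases h : f x = 0
  · simp [h]
  · rw [norm_mul, norm_pow, norm_div]
    have h1 : ‖f x‖ ≠ 0 := norm_ne_zero_iff.mpr h
    simp [h1]

lemma bm_pw {f : S → ℂ} (hf : BM f) (k : ℕ) : BM (pw f k) := by
  obtain ⟨hf, C, hC⟩ := hf
  refine ⟨?_, C, fun x => by rw [norm_pw]; exact hC x⟩
  unfold pw
  fun_prop

/-- the pointwise rigidity -/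
lemma T_pw {f : S → ℂ} (hf : BM f) (x : S) (h1 : s.T f x = Complex.exp Complex.I * f x)
    (h2 : s.T (fun y => ‖f y‖) x = ‖f x‖) (k : ℕ) :
    s.T (pw f k) x = Complex.exp (k * Complex.I) * pw f k x := by
  by_cases hx : f x = 0
  · have h3 : ‖s.T (pw f k) x‖ ≤ 0 := by
      refine (norm_T_le x).trans ?_
      simp_rw [norm_pw]
      rw [h2, hx, norm_zero]
    have h4 : pw f k x = 0 := by simp [pw, hx]
    rw [h4, mul_zero]
    exact norm_le_zero_iff.mp h3
  · have hnx : ‖f x‖ ≠ 0 := norm_ne_zero_iff.mpr hx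
    have hnxc : (‖f x‖ : ℂ) ≠ 0 := by exact_mod_cast hnx
    set σ : ℂ := Complex.exp Complex.I * (f x / ‖f x‖) with hσ
    have hσn : ‖σ‖ = 1 := by
      rw [hσ, norm_mul, norm_div, Complex.norm_exp]
      simp [hnx]
    have hσσ : (starRingEnd ℂ σ) * σ = 1 := by
      rw [mul_comm, Complex.mul_conj, Complex.normSq_eq_norm_sq, hσn]; norm_num
    have hint : ∫ y, (‖f y‖ - ((starRingEnd ℂ σ) * f y).re) ∂(s.K x) = 0 := by
      rw [integral_sub (hf.norm.integrable _) ((hf.const_mul _).re.integrable _)]
      have e1 : ∫ y, ((starRingEnd ℂ σ) * f y).re ∂(s.K x)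
          = (∫ y, (starRingEnd ℂ σ) * f y ∂(s.K x)).re :=
        integral_re ((hf.const_mul _).integrable _)
      rw [e1, integral_const_mul]
      change s.T (fun y => ‖f y‖) x - ((starRingEnd ℂ σ) * s.T f x).re = 0
      rw [h1, h2]
      have e2 : Complex.exp Complex.I * f x = σ * ‖f x‖ := by
        rw [hσ]; field_simp
      rw [e2, ← mul_assoc, hσσ, one_mul, Complex.ofReal_re, sub_self]
    have hnn : ∀ y, 0 ≤ ‖f y‖ - ((starRingEnd ℂ σ) * f y).re := by
      intro y
      have : ((starRingEnd ℂ σ) * f y).re ≤ ‖(starRingEnd ℂ σ) * f y‖ := Complex.re_le_norm _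
      rw [norm_mul, RCLike.norm_conj, hσn, one_mul] at this
      linarith
    have hae : ∀ᵐ y ∂(s.K x), ‖f y‖ - ((starRingEnd ℂ σ) * f y).re = 0 := by
      have := (integral_eq_zero_iff_of_nonneg hnn
        ((hf.norm.sub (hf.const_mul _).re).integrable _)).mp hint
      filter_upwards [this] with y hy using hy
    have hae2 : ∀ᵐ y ∂(s.K x), pw f k y = σ ^ k * ‖f y‖ := by
      filter_upwards [hae] with y hy
      have hz : (starRingEnd ℂ σ) * f y = ‖f y‖ := by
        have h3 : ((starRingEnd ℂ σ) * f y).re = ‖(starRingEnd ℂ σ) * f y‖ := by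
          rw [norm_mul, RCLike.norm_conj, hσn, one_mul]; linarith
        have h4 := Complex.abs_re_eq_norm.mp (by
          rw [h3, abs_of_nonneg (norm_nonneg _)] : |((starRingEnd ℂ σ) * f y).re|
            = ‖(starRingEnd ℂ σ) * f y‖)
        apply Complex.ext
        · rw [Complex.ofReal_re]; linarith
        · rw [h4, Complex.ofReal_im]
      have hfy : f y = σ * ‖f y‖ := by
        rw [← hz, ← mul_assoc, mul_comm σ, hσσ, one_mul]
      by_cases hy0 : f y = 0
      · simp [pw, hy0]
      · have hny : (‖f y‖ : ℂ) ≠ 0 := by exact_mod_cast norm_ne_zero_iff.mpr hy0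
        unfold pw
        have : f y / ‖f y‖ = σ := by
          rw [div_eq_iff hny]; exact hfy
        rw [this, mul_comm]
    have h5 : s.T (pw f k) x = ∫ y, σ ^ k * (‖f y‖ : ℂ) ∂(s.K x) := integral_congr_ae hae2
    rw [h5, integral_const_mul, integral_complex_ofReal]
    change σ ^ k * ((s.T (fun y => ‖f y‖) x : ℝ) : ℂ) = _
    rw [h2, hσ, mul_pow, ← Complex.exp_nat_mul]
    unfold pw
    ring

theorem contradiction (l : Lim s) : False := by
  obtain ⟨c, hc, hce⟩ := l.exists_eigen
  set f := io s c with hf_def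
  have hf : BM f := bm_io c
  have hnf : l.nu (fun x => ‖f x‖) ≠ 0 := hc
  -- the two defects
  have hd1 : l.nu (fun x => ‖s.T f x - Complex.exp Complex.I * f x‖) = 0 := by
    rw [mem_null] at hce
    have : (fun x => ‖io s (Nmap s c - Complex.exp Complex.I • c) x‖)
        = fun x => ‖s.T f x - Complex.exp Complex.I * f x‖ := by
      funext x; rw [io_sub, io_smul, io_Nmap]
    rw [this] at hce
    exact hce
  have hbm1 : BM (fun x => s.T f x - Complex.exp Complex.I * f x) := (s.bm_T hf).sub (hf.const_mul _)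
  have hbm2 : BM (fun x => s.T (fun y => ‖f y‖) x - ‖s.T f x‖) :=
    (s.bm_T hf.norm).sub (s.bm_T hf).norm
  have hd2 : l.nu (fun x => s.T (fun y => ‖f y‖) x - ‖s.T f x‖) = 0 := by
    refine le_antisymm ?_ (l.nu_nonneg hbm2 fun x => sub_nonneg.mpr (norm_T_le x))
    rw [l.nu_sub (s.bm_T hf.norm) (s.bm_T hf).norm, l.nu_T hf.norm,
      ← l.nu_sub hf.norm (s.bm_T hf).norm, ← hd1]
    refine l.nu_mono (hf.norm.sub (s.bm_T hf).norm) hbm1.norm fun x => ?_
    have e : ‖f x‖ = ‖Complex.exp Complex.I * f x‖ := by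
      rw [norm_mul, Complex.norm_exp]; simp
    rw [e, norm_sub_rev]
    exact norm_sub_norm_le _ _
  set g : S → ℝ := fun x => ‖s.T f x - Complex.exp Complex.I * f x‖
    + (s.T (fun y => ‖f y‖) x - ‖s.T f x‖) with hg_def
  have hg : BM g := hbm1.norm.add hbm2
  have hg0 : ∀ x, 0 ≤ g x := fun x =>
    add_nonneg (norm_nonneg _) (sub_nonneg.mpr (norm_T_le x))
  have hgz : l.nu g = 0 := by
    rw [hg_def, l.nu_add hbm1.norm hbm2, hd1, hd2, add_zero]
  have hsupp := l.nu_support hg hg0 hgz
  have hbad : MeasurableSet {x | 0 < g x} := measurableSet_lt measurable_const hg.1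
  have hbmi : BM (Set.indicator {x | 0 < g x} fun _ => (1:ℝ)) := by
    refine ⟨measurable_const.indicator hbad, 1, fun x => ?_⟩
    by_cases hx : x ∈ {x | 0 < g x}
    · rw [Set.indicator_of_mem hx]; simp
    · rw [Set.indicator_of_notMem hx]; simp
  -- the powers are eigenfunctions
  have hpw : ∀ k : ℕ, l.nu (fun x => ‖s.T (pw f k) x - Complex.exp (k * Complex.I) * pw f k x‖) = 0 := by
    intro k
    have hb : BM (fun x => s.T (pw f k) x - Complex.exp (k * Complex.I) * pw f k x) :=
      (s.bm_T (bm_pw hf k)).sub ((bm_pw hf k).const_mul _)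
    obtain ⟨C, hC⟩ := hb.2
    refine le_antisymm ?_ (l.nu_nonneg hb.norm fun x => norm_nonneg _)
    calc l.nu (fun x => ‖s.T (pw f k) x - Complex.exp (k * Complex.I) * pw f k x‖)
        ≤ l.nu (fun x => |C| * Set.indicator {x | 0 < g x} (fun _ => 1) x) := by
          refine l.nu_mono hb.norm (hbmi.const_mul_real _) fun x => ?_
          by_cases hx : 0 < g x
          · rw [Set.indicator_of_mem (show x ∈ {x | 0 < g x} from hx), mul_one]
            exact (hC x).trans (le_abs_self _)
          · rw [Set.indicator_of_notMem (show x ∉ {x | 0 < g x} from hx), mul_zero]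
            have hgx : g x = 0 := le_antisymm (not_lt.mp hx) (hg0 x)
            have a1 : 0 ≤ ‖s.T f x - Complex.exp Complex.I * f x‖ := norm_nonneg _
            have a2 : 0 ≤ s.T (fun y => ‖f y‖) x - ‖s.T f x‖ := sub_nonneg.mpr (norm_T_le x)
            have a3 : ‖s.T f x - Complex.exp Complex.I * f x‖ = 0 := by
              simp only [hg_def] at hgx; linarith
            have a4 : s.T (fun y => ‖f y‖) x - ‖s.T f x‖ = 0 := by
              simp only [hg_def] at hgx; linarith
            have a5 : s.T f x = Complex.exp Complex.I * f x := sub_eq_zero.mp (norm_eq_zero.mp a3)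
            have a6 : s.T (fun y => ‖f y‖) x = ‖f x‖ := by
              rw [sub_eq_zero.mp a4, a5, norm_mul, Complex.norm_exp]; simp
            rw [T_pw hf x a5 a6 k, sub_self, norm_zero]
      _ = 0 := by rw [l.nu_const_mul, hsupp, mul_zero]
  -- hence all `exp (k I)` are eigenvalues on the quotient
  have hev : ∀ k : ℕ, Module.End.HasEigenvalue l.Nbar (Complex.exp (k * Complex.I)) := by
    intro k
    have hio : io s (vec s (pw f k)) = s.T (pw f k) := (T_eq_io (bm_pw hf k)).symm
    have hv : vec s (pw f k) ∉ l.null := by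
      intro hmem
      rw [mem_null, hio] at hmem
      apply hnf
      refine le_antisymm ?_ (l.nu_norm_nonneg hf)
      have hb : BM (fun x => s.T (pw f k) x - Complex.exp (k * Complex.I) * pw f k x) :=
        (s.bm_T (bm_pw hf k)).sub ((bm_pw hf k).const_mul _)
      calc l.nu (fun x => ‖f x‖) ≤ l.nu (fun x => ‖s.T (pw f k) x‖
            + ‖s.T (pw f k) x - Complex.exp (k * Complex.I) * pw f k x‖) := by
            refine l.nu_mono hf.norm ((s.bm_T (bm_pw hf k)).norm.add hb.norm) fun x => ?_
            have e : ‖f x‖ = ‖Complex.exp (k * Complex.I) * pw f k x‖ := by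
              rw [norm_mul, norm_pw, Complex.norm_exp]; simp
            rw [e]
            calc ‖Complex.exp (k * Complex.I) * pw f k x‖
                = ‖s.T (pw f k) x - (s.T (pw f k) x - Complex.exp (k * Complex.I) * pw f k x)‖ := by
                  rw [sub_sub_cancel]
              _ ≤ _ := norm_sub_le _ _
        _ = 0 := by rw [l.nu_add (s.bm_T (bm_pw hf k)).norm hb.norm, hmem, hpw k, add_zero]
    have hN : Nmap s (vec s (pw f k)) - Complex.exp (k * Complex.I) • vec s (pw f k) ∈ l.null := by
      rw [mem_null]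
      have hb : BM (fun x => s.T (pw f k) x - Complex.exp (k * Complex.I) * pw f k x) :=
        (s.bm_T (bm_pw hf k)).sub ((bm_pw hf k).const_mul _)
      have e : io s (Nmap s (vec s (pw f k)) - Complex.exp (k * Complex.I) • vec s (pw f k))
          = s.T (fun x => s.T (pw f k) x - Complex.exp (k * Complex.I) * pw f k x) := by
        funext x
        rw [io_sub, io_smul, io_Nmap, hio]
        change _ = ∫ y, (s.T (pw f k) y - Complex.exp (k * Complex.I) * pw f k y) ∂(s.K x)
        rw [integral_sub ((s.bm_T (bm_pw hf k)).integrable _) (((bm_pw hf k).const_mul _).integrable _),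
          integral_const_mul]
        rfl
      rw [e]
      refine le_antisymm ?_ (l.nu_norm_nonneg (s.bm_T hb))
      rw [← hpw k]
      exact l.nu_norm_T_le hb
    refine Module.End.hasEigenvalue_of_hasEigenvector (x := l.null.mkQ (vec s (pw f k))) ?_
    rw [Module.End.hasEigenvector_iff, Module.End.mem_eigenspace_iff]
    constructor
    · have : l.Nbar (l.null.mkQ (vec s (pw f k))) - Complex.exp (k * Complex.I) •
          l.null.mkQ (vec s (pw f k))
          = l.null.mkQ (Nmap s (vec s (pw f k)) - Complex.exp (k * Complex.I) • vec s (pw f k)) := by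
        rw [map_sub, map_smul]; rfl
      rw [← sub_eq_zero, this, ← LinearMap.mem_ker, Submodule.ker_mkQ]
      exact hN
    · intro h0
      apply hv
      rw [← Submodule.ker_mkQ l.null, LinearMap.mem_ker]
      exact h0
  have hfin : Set.Finite {μ | Module.End.HasEigenvalue l.Nbar μ} := Module.End.finite_hasEigenvalue _
  have hinj : Function.Injective (fun k : ℕ => Complex.exp (k * Complex.I)) := by
    intro j k hjk
    by_contra hne
    have hz : (j : ℤ) - k ≠ 0 := by
      intro h; apply hne; omega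
    refine exp_int_mul_I_ne_one _ hz ?_
    simp only at hjk
    have : ((((j : ℤ) - k : ℤ)) : ℂ) * Complex.I = (j : ℂ) * Complex.I - k * Complex.I := by
      push_cast; ring
    rw [this, Complex.exp_sub, hjk, div_self (Complex.exp_ne_zero _)]
  exact Set.infinite_range_of_injective hinj (hfin.subset (by rintro _ ⟨k, rfl⟩; exact hev k))

end Lim

theorem Setup.false {S : Type*} [MeasurableSpace S] (s : Setup S) : False := by
  obtain ⟨l⟩ := exists_lim s
  exact l.contradiction

end Pool.Agent.MP_d5803c_pr
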