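import Mathlib

/-!
Definitions for the problem on stochastic modules and functions of Markov processes of finite rank.
Sequences are indexed by `ℕ` starting at `0`, so `Y i` below is `Y_{i+1}` of the problem.
-/

open MeasureTheory ProbabilityTheory

namespace Pool.Agent.MP_d5803c_pr

/-- `η ∈ A = ⨁_{n ≥ 0} A_n`: `η = (η_n)_{n ≥ 0}`, where `η_n` is a bounded measurable function
`S^n → ℝ` (almost surely equal functions are not identified; for `n = 0` it is a number) and
`η_n = 0` for all but finitely many `n`. -/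
def InA {S : Type*} [MeasurableSpace S] (η : ∀ n : ℕ, (Fin n → S) → ℝ) : Prop :=
  (∀ n, Measurable (η n) ∧ ∃ C : ℝ, ∀ x, |η n x| ≤ C) ∧ ∃ N : ℕ, ∀ n ≥ N, ∀ x, η n x = 0

/-- `E(ξη)` for `ξ, η ∈ A`.  For `ξ = f ∈ A_m` and `η = g ∈ A_n` the concatenation product is
`(fg)(x_1,…,x_{m+n}) = f(x_1,…,x_m) g(x_{m+1},…,x_{m+n})`, so that
`E(fg) = 𝔼 [f(Y_1,…,Y_m) g(Y_{m+1},…,Y_{m+n})]`; this is extended bilinearly to finite sums. -/
noncomputable def pairing {S Ω : Type*} [MeasurableSpace Ω] (Q : Measure Ω) (Y : ℕ → Ω → S)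
    (ξ η : ∀ n : ℕ, (Fin n → S) → ℝ) : ℝ :=
  ∑ᶠ m : ℕ, ∑ᶠ n : ℕ, ∫ ω, ξ m (fun i => Y i ω) * η n (fun j => Y (m + j) ω) ∂Q

/-- `η ∈ J`, where `J = {η ∈ A : E(ξη) = 0 for all ξ ∈ A}`. -/
def InJ {S Ω : Type*} [MeasurableSpace S] [MeasurableSpace Ω] (Q : Measure Ω) (Y : ℕ → Ω → S)
    (η : ∀ n : ℕ, (Fin n → S) → ℝ) : Prop :=
  InA η ∧ ∀ ξ : ∀ n : ℕ, (Fin n → S) → ℝ, InA ξ → pairing Q Y ξ η = 0

/-- The vector space `L = A / J` has dimension at most `k`: there are `e_1,…,e_k ∈ A` whose classes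
modulo `J` span `A / J`, that is, every `η ∈ A` differs from some `∑ c_i e_i` by an element of `J`. -/
def DimLAtMost {S Ω : Type*} [MeasurableSpace S] [MeasurableSpace Ω] (Q : Measure Ω)
    (Y : ℕ → Ω → S) (k : ℕ) : Prop :=
  ∃ e : Fin k → ∀ n : ℕ, (Fin n → S) → ℝ, (∀ i, InA (e i)) ∧
    ∀ η : ∀ n : ℕ, (Fin n → S) → ℝ, InA η →
      ∃ c : Fin k → ℝ, InJ Q Y (fun n x => η n x - ∑ i, c i * e i n x)

/-- `(X_n)` is a time-homogeneous Markov process on `S'` with initial law `p` and transition function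
`P`, under the probability measure `μ`: for every `n`, every event `{(X_0,…,X_n) ∈ H}` and every
measurable `B`, `μ((X_0,…,X_n) ∈ H, X_{n+1} ∈ B) = ∫_{(X_0,…,X_n) ∈ H} P(X_n, B) dμ`. -/
structure IsMarkovProcess {S' Ω' : Type*} [MeasurableSpace S'] [MeasurableSpace Ω'] (μ : Measure Ω')
    (X : ℕ → Ω' → S') (p : Measure S') (P : Kernel S' S') : Prop where
  measurable : ∀ n, Measurable (X n)
  initial : μ.map (X 0) = p
  transition : ∀ (n : ℕ) (H : Set (Fin (n + 1) → S')), MeasurableSet H → ∀ B : Set S', MeasurableSet B →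
    μ {ω | (fun i : Fin (n + 1) => X i ω) ∈ H ∧ X (n + 1) ω ∈ B}
      = ∫⁻ ω in {ω | (fun i : Fin (n + 1) => X i ω) ∈ H}, P (X n ω) B ∂μ

/-- The Markov process `(X_n)` with transition function `P` is of rank `r`:
`P(x,B) = ∑_{j=1}^r a_j(x) b_j(B)` with `a_j` measurable and `b_j` finite signed measures, the `b_j`
linearly independent, and no nontrivial relation `∑ c_j a_j(x) = 0` holding outside a null set
(a measurable set `N` with `μ(X_n ∈ N) = 0` for all `n`). -/
def IsOfRank {S' Ω' : Type*} [MeasurableSpace S'] [MeasurableSpace Ω'] (μ : Measure Ω')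
    (X : ℕ → Ω' → S') (P : Kernel S' S') (r : ℕ) : Prop :=
  ∃ (a : Fin r → S' → ℝ) (b : Fin r → SignedMeasure S'),
    (∀ j, Measurable (a j)) ∧
    (∀ x B, MeasurableSet B → (P x).real B = ∑ j, a j x * b j B) ∧
    LinearIndependent ℝ b ∧
    ∀ (c : Fin r → ℝ) (N : Set S'), MeasurableSet N → (∀ n, μ {ω | X n ω ∈ N} = 0) →
      (∀ x, x ∉ N → ∑ j, c j * a j x = 0) → c = 0

/-- The random sequence `Y` (on `(Ω, Q)`, with values in `S`) has the same finite-dimensional
distributions as a measurable function of some finite-rank Markov process, whose state space and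
probability space live in the universes `u` and `v`. -/
def IsFunctionOfFiniteRankMarkov.{u, v, s, t} {S : Type s} {Ω : Type t} [MeasurableSpace S]
    [MeasurableSpace Ω] (Q : Measure Ω) (Y : ℕ → Ω → S) : Prop :=
  ∃ (S' : Type u) (_ : MeasurableSpace S') (Ω' : Type v) (_ : MeasurableSpace Ω') (μ : Measure Ω')
    (X : ℕ → Ω' → S') (p : Measure S') (P : Kernel S' S') (r : ℕ) (φ : S' → S),
    IsProbabilityMeasure μ ∧ IsMarkovKernel P ∧ IsMarkovProcess μ X p P ∧ IsOfRank μ X P r ∧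
    Measurable φ ∧
    ∀ n : ℕ, Q.map (fun ω (i : Fin n) => Y i ω) = μ.map (fun ω (i : Fin n) => φ (X i ω))

end Pool.Agent.MP_d5803c_pr
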