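import Pool.Agent.Lib.MP_d5803c_pr.Defs

/-!
The example: `T` is a random time with `P(T ≥ n) = 2^{-n} (3 + cos n)/4`, and `Y_n = 1[T < n]`
(`n ≥ 1`).  Its stochastic module is finite-dimensional.
-/

open MeasureTheory ProbabilityTheory

namespace Pool.Agent.MP_d5803c_pr

/-- tail `P(T ≥ n)` -/
noncomputable def tail (n : ℕ) : ℝ := (1 / 2 : ℝ) ^ n * (3 + Real.cos n) / 4

/-- `P(T = n)` -/
noncomputable def wt (n : ℕ) : ℝ := tail n - tail (n + 1)

lemma wt_eq (n : ℕ) : wt n = (1 / 2 : ℝ) ^ n * (3 + 2 * Real.cos n - Real.cos (n + 1)) / 8 := by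
  unfold wt tail
  push_cast
  ring

lemma wt_nonneg (n : ℕ) : 0 ≤ wt n := by
  rw [wt_eq]
  have h1 := Real.neg_one_le_cos n
  have h2 := Real.cos_le_one (n + 1)
  have h3 : (0:ℝ) < (1 / 2 : ℝ) ^ n := by positivity
  apply div_nonneg _ (by norm_num)
  apply mul_nonneg h3.le
  linarith

lemma wt_le (n : ℕ) : wt n ≤ (1 / 2 : ℝ) ^ n := by
  rw [wt_eq]
  have h1 := Real.cos_le_one n
  have h2 := Real.neg_one_le_cos (n + 1)
  have h3 : (0:ℝ) < (1 / 2 : ℝ) ^ n := by positivity
  rw [div_le_iff₀ (by norm_num)]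
  apply mul_le_mul_of_nonneg_left _ h3.le
  linarith

lemma tail_tendsto : Filter.Tendsto tail Filter.atTop (nhds 0) := by
  have h : Filter.Tendsto (fun n : ℕ => (1 / 2 : ℝ) ^ n) Filter.atTop (nhds 0) :=
    tendsto_pow_atTop_nhds_zero_of_lt_one (by norm_num) (by norm_num)
  refine squeeze_zero (fun n => ?_) (fun n => ?_) h
  · unfold tail
    have h1 := Real.neg_one_le_cos n
    have h3 : (0:ℝ) < (1 / 2 : ℝ) ^ n := by positivity
    apply div_nonneg _ (by norm_num)
    apply mul_nonneg h3.le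
    linarith
  · unfold tail
    have h1 := Real.cos_le_one n
    have h3 : (0:ℝ) < (1 / 2 : ℝ) ^ n := by positivity
    rw [div_le_iff₀ (by norm_num)]
    apply mul_le_mul_of_nonneg_left _ h3.le
    linarith

lemma hasSum_wt_tail (m : ℕ) : HasSum (fun n => wt (n + m)) (tail m) := by
  rw [hasSum_iff_tendsto_nat_of_nonneg (fun n => wt_nonneg _)]
  have h : ∀ n, ∑ i ∈ Finset.range n, wt (i + m) = tail m - tail (n + m) := by
    intro n
    induction n with
    | zero => simp
    | succ n ih =>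
      rw [Finset.sum_range_succ, ih, wt]
      have : n + 1 + m = n + m + 1 := by ring
      rw [this]
      ring
  simp_rw [h]
  have := (tail_tendsto.comp (Filter.tendsto_add_atTop_nat m)).const_sub (tail m)
  simpa using this

lemma hasSum_wt : HasSum wt 1 := by
  have h := hasSum_wt_tail 0
  have h0 : tail 0 = 1 := by unfold tail; norm_num
  rw [h0] at h
  simpa using h

/-- the law of `T` -/
noncomputable def lawT : PMF ℕ := ⟨fun n => ENNReal.ofReal (wt n), by
  have h := hasSum_wt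
  have h1 : ∑' n, ENNReal.ofReal (wt n) = 1 := by
    rw [← ENNReal.ofReal_tsum_of_nonneg wt_nonneg h.summable, h.tsum_eq, ENNReal.ofReal_one]
  rw [← h1]
  exact ENNReal.summable.hasSum⟩

lemma lawT_toReal (n : ℕ) : (lawT n).toReal = wt n := by
  change (ENNReal.ofReal (wt n)).toReal = wt n
  exact ENNReal.toReal_ofReal (wt_nonneg n)

/-- the probability measure -/
noncomputable def QT : Measure ℕ := lawT.toMeasure

instance : IsProbabilityMeasure QT := by unfold QT; infer_instance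

/-- the process (index shifted by one) -/
def YT (n : ℕ) (t : ℕ) : Bool := decide (t ≤ n)

lemma measurable_YT (n : ℕ) : Measurable (YT n) := measurable_of_countable _

lemma integral_QT (g : ℕ → ℝ) (C : ℝ) (hC : ∀ n, |g n| ≤ C) : ∫ t, g t ∂QT = ∑' t, wt t * g t := by
  have hi : Integrable g QT :=
    Integrable.of_bound (measurable_of_countable g).aestronglyMeasurable C
      (Filter.Eventually.of_forall hC)
  unfold QT at hi ⊢
  rw [PMF.integral_eq_tsum _ _ hi]
  simp_rw [lawT_toReal, smul_eq_mul]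

lemma summable_geo_mul (u : ℕ → ℝ) (hu : ∀ s, |u s| ≤ (1 / 2 : ℝ) ^ s) (g : ℕ → ℝ) (C : ℝ)
    (hC : ∀ n, |g n| ≤ C) : Summable (fun s => u s * g s) := by
  have h : Summable (fun s : ℕ => (1 / 2 : ℝ) ^ s * C) :=
    (summable_geometric_of_lt_one (by norm_num) (by norm_num)).mul_right C
  refine Summable.of_norm_bounded h (fun s => ?_)
  rw [Real.norm_eq_abs, abs_mul]
  exact mul_le_mul (hu s) (hC s) (abs_nonneg _) (by positivity)

noncomputable def u0 (s : ℕ) : ℝ := (1 / 2 : ℝ) ^ s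
noncomputable def u1 (s : ℕ) : ℝ := (1 / 2 : ℝ) ^ s * Real.cos s
noncomputable def u2 (s : ℕ) : ℝ := (1 / 2 : ℝ) ^ s * Real.sin s

lemma hu0 (s : ℕ) : |u0 s| ≤ (1 / 2 : ℝ) ^ s := by
  unfold u0; rw [abs_of_pos (by positivity)]

lemma hu1 (s : ℕ) : |u1 s| ≤ (1 / 2 : ℝ) ^ s := by
  unfold u1; rw [abs_mul, abs_of_pos (by positivity : (0:ℝ) < (1 / 2 : ℝ) ^ s)]
  exact mul_le_of_le_one_right (by positivity) (Real.abs_cos_le_one _)

lemma hu2 (s : ℕ) : |u2 s| ≤ (1 / 2 : ℝ) ^ s := by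
  unfold u2; rw [abs_mul, abs_of_pos (by positivity : (0:ℝ) < (1 / 2 : ℝ) ^ s)]
  exact mul_le_of_le_one_right (by positivity) (Real.abs_sin_le_one _)

lemma wt_add (s m : ℕ) : wt (s + m) =
    ((1 / 2 : ℝ) ^ m * 3 / 8) * u0 s
      + ((1 / 2 : ℝ) ^ m * (2 * Real.cos m - Real.cos (m + 1)) / 8) * u1 s
      + ((1 / 2 : ℝ) ^ m * (-2 * Real.sin m + Real.sin (m + 1)) / 8) * u2 s := by
  rw [wt_eq]
  unfold u0 u1 u2
  have h1 : Real.cos ((s + m : ℕ) : ℝ) = Real.cos s * Real.cos m - Real.sin s * Real.sin m := by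
    push_cast; rw [Real.cos_add]
  have h2 : Real.cos (((s + m : ℕ) : ℝ) + 1)
      = Real.cos s * Real.cos (m + 1) - Real.sin s * Real.sin (m + 1) := by
    push_cast; rw [add_assoc, Real.cos_add]
  rw [h1, h2, pow_add]
  ring


/-- component functionals -/
noncomputable def comp (u : ℕ → ℝ) (n : ℕ) (g : (Fin n → Bool) → ℝ) : ℝ :=
  ∑' s, u s * g (fun i : Fin n => YT i s)

lemma int_pair (m n : ℕ) (f : (Fin m → Bool) → ℝ) (g : (Fin n → Bool) → ℝ)
    (hf : ∃ C : ℝ, ∀ x, |f x| ≤ C) (hg : ∃ C : ℝ, ∀ x, |g x| ≤ C) :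
    ∫ t, f (fun i => YT i t) * g (fun j => YT (m + j) t) ∂QT
      = (∑ t ∈ Finset.range m, wt t * f (fun i => YT i t)) * g (fun _ => true)
        + ((f (fun _ => false) * ((1 / 2 : ℝ) ^ m * 3 / 8)) * comp u0 n g
      + (f (fun _ => false) * ((1 / 2 : ℝ) ^ m * (2 * Real.cos m - Real.cos (m + 1)) / 8)) * comp u1 n g
      + (f (fun _ => false) * ((1 / 2 : ℝ) ^ m * (-2 * Real.sin m + Real.sin (m + 1)) / 8)) *
          comp u2 n g) := by
  obtain ⟨C, hC⟩ := hf
  obtain ⟨D, hD⟩ := hg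
  have hbd : ∀ t, |f (fun i : Fin m => YT i t) * g (fun j : Fin n => YT (m + j) t)| ≤ C * D := by
    intro t
    rw [abs_mul]
    exact mul_le_mul (hC _) (hD _) (abs_nonneg _) ((abs_nonneg _).trans (hC (fun _ => true)))
  rw [integral_QT _ (C * D) hbd]
  have hw : ∀ s, |wt s| ≤ (1 / 2 : ℝ) ^ s := fun s => by
    rw [abs_of_nonneg (wt_nonneg s)]; exact wt_le s
  have hsum := summable_geo_mul wt hw
    (fun t => f (fun i : Fin m => YT i t) * g (fun j : Fin n => YT (m + j) t)) (C * D) hbd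
  rw [← hsum.sum_add_tsum_nat_add m]
  congr 1
  · rw [Finset.sum_mul]
    refine Finset.sum_congr rfl fun t ht => ?_
    have : (fun j : Fin n => YT (m + j) t) = fun _ => true := by
      funext j
      simp only [YT, decide_eq_true_eq]
      have := Finset.mem_range.mp ht
      omega
    rw [this]
    ring
  · have e1 : ∀ s, wt (s + m) * (f (fun i : Fin m => YT i (s + m)) * g (fun j : Fin n => YT (m + j) (s + m)))
        = ((f (fun _ => false) * ((1 / 2 : ℝ) ^ m * 3 / 8)) * (u0 s * g (fun j : Fin n => YT j s))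
        + (f (fun _ => false) * ((1 / 2 : ℝ) ^ m * (2 * Real.cos m - Real.cos (m + 1)) / 8)) *
            (u1 s * g (fun j : Fin n => YT j s)))
        + (f (fun _ => false) * ((1 / 2 : ℝ) ^ m * (-2 * Real.sin m + Real.sin (m + 1)) / 8)) *
            (u2 s * g (fun j : Fin n => YT j s)) := by
      intro s
      have a1 : (fun i : Fin m => YT i (s + m)) = fun _ => false := by
        funext i
        simp only [YT, decide_eq_false_iff_not]
        have := i.2
        omega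
      have a2 : (fun j : Fin n => YT (m + j) (s + m)) = fun j : Fin n => YT j s := by
        funext j
        simp only [YT, decide_eq_decide]
        omega
      rw [a1, a2, wt_add]
      ring
    simp_rw [e1]
    have s0 := summable_geo_mul u0 hu0 (fun s => g (fun j : Fin n => YT j s)) D (fun s => hD _)
    have s1 := summable_geo_mul u1 hu1 (fun s => g (fun j : Fin n => YT j s)) D (fun s => hD _)
    have s2 := summable_geo_mul u2 hu2 (fun s => g (fun j : Fin n => YT j s)) D (fun s => hD _)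
    rw [((s0.mul_left _).add (s1.mul_left _)).tsum_add (s2.mul_left _),
      (s0.mul_left _).tsum_add (s1.mul_left _), tsum_mul_left, tsum_mul_left, tsum_mul_left]
    rfl


lemma pairing_eq {S Ω : Type*} [MeasurableSpace Ω] (Q : Measure Ω) (Y : ℕ → Ω → S)
    (ξ η : ∀ n : ℕ, (Fin n → S) → ℝ) (M N : ℕ) (hM : ∀ m ≥ M, ∀ x, ξ m x = 0)
    (hN : ∀ n ≥ N, ∀ x, η n x = 0) :
    pairing Q Y ξ η = ∑ m ∈ Finset.range M, ∑ n ∈ Finset.range N,
      ∫ ω, ξ m (fun i => Y i ω) * η n (fun j => Y (m + j) ω) ∂Q := by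
  unfold pairing
  rw [finsum_eq_sum_of_support_subset (s := Finset.range M)]
  · refine Finset.sum_congr rfl fun m _ => ?_
    rw [finsum_eq_sum_of_support_subset (s := Finset.range N)]
    intro n hn
    by_contra h
    have : N ≤ n := by simpa using h
    apply hn
    simp [hN n this]
  · intro m hm
    by_contra h
    have : M ≤ m := by simpa using h
    apply hm
    simp [hM m this]

/-- the space `A` as a linear subspace -/
def Alg : Submodule ℝ (∀ n : ℕ, (Fin n → Bool) → ℝ) where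
  carrier := {η | InA η}
  zero_mem' := ⟨fun n => ⟨measurable_const, 0, fun x => by simp⟩, 0, fun n _ x => rfl⟩
  add_mem' := by
    rintro f g ⟨hf, M, hM⟩ ⟨hg, N, hN⟩
    refine ⟨fun n => ⟨(hf n).1.add (hg n).1, ?_⟩, max M N, fun n hn x => ?_⟩
    · obtain ⟨C, hC⟩ := (hf n).2
      obtain ⟨D, hD⟩ := (hg n).2
      exact ⟨C + D, fun x => (abs_add_le _ _).trans (add_le_add (hC x) (hD x))⟩
    · rw [Pi.add_apply, Pi.add_apply, hM n (le_trans (le_max_left _ _) hn),
        hN n (le_trans (le_max_right _ _) hn), add_zero]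
  smul_mem' := by
    rintro c f ⟨hf, M, hM⟩
    refine ⟨fun n => ⟨(hf n).1.const_smul c, ?_⟩, M, fun n hn x => ?_⟩
    · obtain ⟨C, hC⟩ := (hf n).2
      refine ⟨|c| * C, fun x => ?_⟩
      rw [Pi.smul_apply, Pi.smul_apply, smul_eq_mul, abs_mul]
      exact mul_le_mul_of_nonneg_left (hC x) (abs_nonneg c)
    · rw [Pi.smul_apply, Pi.smul_apply, hM n hn, smul_zero]

/-- a functional on `A` given by component functionals -/
noncomputable def total (F : ∀ n : ℕ, ((Fin n → Bool) → ℝ) → ℝ) (η : ∀ n : ℕ, (Fin n → Bool) → ℝ) : ℝ :=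
  ∑ᶠ n, F n (η n)

lemma total_eq (F : ∀ n : ℕ, ((Fin n → Bool) → ℝ) → ℝ) (hF : ∀ n, F n 0 = 0)
    (η : ∀ n : ℕ, (Fin n → Bool) → ℝ) (N : ℕ) (hN : ∀ n ≥ N, ∀ x, η n x = 0) :
    total F η = ∑ n ∈ Finset.range N, F n (η n) := by
  unfold total
  rw [finsum_eq_sum_of_support_subset (s := Finset.range N)]
  intro n hn
  by_contra h
  have : N ≤ n := by simpa using h
  apply hn
  have h0 : η n = 0 := funext fun x => hN n this x
  simp [h0, hF]

/-- linear functional on `A` from linear component functionals -/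
noncomputable def totalLin (F : ∀ n : ℕ, ((Fin n → Bool) → ℝ) → ℝ)
    (hF0 : ∀ n, F n 0 = 0)
    (hFa : ∀ (a b : Alg) n, F n (a.1 n + b.1 n) = F n (a.1 n) + F n (b.1 n))
    (hFs : ∀ (c : ℝ) (a : Alg) n, F n (c • a.1 n) = c * F n (a.1 n)) : Alg →ₗ[ℝ] ℝ where
  toFun η := total F η.1
  map_add' a b := by
    obtain ⟨N, hN⟩ := a.2.2
    obtain ⟨N', hN'⟩ := b.2.2
    have h1 := total_eq F hF0 (a + b : Alg).1 (max N N') (fun n hn x => by
      change a.1 n x + b.1 n x = 0
      rw [hN n (le_trans (le_max_left _ _) hn), hN' n (le_trans (le_max_right _ _) hn), add_zero])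
    have h2 := total_eq F hF0 a.1 (max N N') (fun n hn => hN n (le_trans (le_max_left _ _) hn))
    have h3 := total_eq F hF0 b.1 (max N N') (fun n hn => hN' n (le_trans (le_max_right _ _) hn))
    rw [h1, h2, h3, ← Finset.sum_add_distrib]
    exact Finset.sum_congr rfl fun n _ => hFa a b n
  map_smul' c a := by
    obtain ⟨N, hN⟩ := a.2.2
    have h1 := total_eq F hF0 (c • a : Alg).1 N (fun n hn x => by
      change c * a.1 n x = 0
      rw [hN n hn, mul_zero])
    have h2 := total_eq F hF0 a.1 N hN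
    rw [h1, h2, RingHom.id_apply, smul_eq_mul, Finset.mul_sum]
    exact Finset.sum_congr rfl fun n _ => hFs c a n

lemma comp_zero (u : ℕ → ℝ) (n : ℕ) : comp u n 0 = 0 := by simp [comp]

lemma comp_add (u : ℕ → ℝ) (hu : ∀ s, |u s| ≤ (1 / 2 : ℝ) ^ s) (a b : Alg) (n : ℕ) :
    comp u n (a.1 n + b.1 n) = comp u n (a.1 n) + comp u n (b.1 n) := by
  obtain ⟨-, C, hC⟩ := a.2.1 n
  obtain ⟨-, D, hD⟩ := b.2.1 n
  unfold comp
  rw [← (summable_geo_mul u hu (fun s => a.1 n (fun i : Fin n => YT i s)) C (fun s => hC _)).tsum_add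
      (summable_geo_mul u hu (fun s => b.1 n (fun i : Fin n => YT i s)) D (fun s => hD _))]
  exact tsum_congr fun s => mul_add _ _ _

lemma comp_smul (u : ℕ → ℝ) (c : ℝ) (a : Alg) (n : ℕ) :
    comp u n (c • a.1 n) = c * comp u n (a.1 n) := by
  unfold comp
  rw [← tsum_mul_left]
  exact tsum_congr fun s => mul_left_comm _ _ _

/-- the functional of a geometric weight -/
noncomputable def lam (u : ℕ → ℝ) (hu : ∀ s, |u s| ≤ (1 / 2 : ℝ) ^ s) : Alg →ₗ[ℝ] ℝ :=
  totalLin (comp u) (comp_zero u) (comp_add u hu) (comp_smul u)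

/-- evaluation on all-true words -/
noncomputable def evTrue : Alg →ₗ[ℝ] ℝ :=
  totalLin (fun _ g => g (fun _ => true)) (fun _ => rfl) (fun _ _ _ => rfl) (fun _ _ _ => rfl)

/-- the four linear functionals on `A` -/
noncomputable def Lam : Alg →ₗ[ℝ] (Fin 4 → ℝ) :=
  LinearMap.pi ![lam u0 hu0, lam u1 hu1, lam u2 hu2, evTrue]

lemma inJ_of_Lam (η : Alg) (hη : Lam η = 0) : InJ QT YT η.1 := by
  refine ⟨η.2, fun ξ hξ => ?_⟩
  have k0 : lam u0 hu0 η = 0 := congrFun hη 0
  have k1 : lam u1 hu1 η = 0 := congrFun hη 1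
  have k2 : lam u2 hu2 η = 0 := congrFun hη 2
  have k3 : evTrue η = 0 := congrFun hη 3
  obtain ⟨M, hM⟩ := hξ.2
  obtain ⟨N, hN⟩ := η.2.2
  change total (comp u0) η.1 = 0 at k0
  change total (comp u1) η.1 = 0 at k1
  change total (comp u2) η.1 = 0 at k2
  change total (fun _ g => g (fun _ => true)) η.1 = 0 at k3
  rw [total_eq _ (comp_zero u0) η.1 N hN] at k0
  rw [total_eq _ (comp_zero u1) η.1 N hN] at k1
  rw [total_eq _ (comp_zero u2) η.1 N hN] at k2
  rw [total_eq _ (fun _ => rfl) η.1 N hN] at k3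
  rw [pairing_eq QT YT ξ η.1 M N hM hN]
  refine Finset.sum_eq_zero fun m _ => ?_
  have h : ∀ n ∈ Finset.range N, ∫ ω, ξ m (fun i => YT i ω) * η.1 n (fun j => YT (m + j) ω) ∂QT
      = (∑ t ∈ Finset.range m, wt t * ξ m (fun i => YT i t)) * η.1 n (fun _ => true)
        + ((ξ m (fun _ => false) * ((1 / 2 : ℝ) ^ m * 3 / 8)) * comp u0 n (η.1 n)
      + (ξ m (fun _ => false) * ((1 / 2 : ℝ) ^ m * (2 * Real.cos m - Real.cos (m + 1)) / 8)) *
          comp u1 n (η.1 n)
      + (ξ m (fun _ => false) * ((1 / 2 : ℝ) ^ m * (-2 * Real.sin m + Real.sin (m + 1)) / 8)) *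
          comp u2 n (η.1 n)) := fun n _ => int_pair m n _ _ (hξ.1 m).2 (η.2.1 n).2
  rw [Finset.sum_congr rfl h]
  rw [Finset.sum_add_distrib, Finset.sum_add_distrib, Finset.sum_add_distrib, ← Finset.mul_sum,
    ← Finset.mul_sum, ← Finset.mul_sum, ← Finset.mul_sum, k0, k1, k2, k3]
  ring

/-- A linear map to `ℝ^k` whose kernel lies in `J` shows `dim A/J ≤ k`. -/
theorem dimL_le_four : DimLAtMost QT YT 4 := by
  classical
  obtain ⟨r, hr, b⟩ : ∃ r : ℕ, r ≤ 4 ∧ Nonempty (Module.Basis (Fin r) ℝ (LinearMap.range Lam)) := by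
    refine ⟨Module.finrank ℝ (LinearMap.range Lam), ?_, ⟨Module.finBasis ℝ (LinearMap.range Lam)⟩⟩
    calc Module.finrank ℝ (LinearMap.range Lam) ≤ Module.finrank ℝ (Fin 4 → ℝ) :=
          Submodule.finrank_le _
      _ = 4 := by simp
  obtain ⟨b⟩ := b
  choose e he using fun i => LinearMap.mem_range.mp (b i).2
  refine ⟨fun i => if h : i.1 < r then (e ⟨i.1, h⟩).1 else 0, fun i => ?_, fun η hη => ?_⟩
  · by_cases h : i.1 < r
    · simp only [h, dif_pos]
      exact (e ⟨i.1, h⟩).2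
    · simp only [h, dif_neg, not_false_iff]
      exact Alg.zero_mem
  · let c : Fin r → ℝ := fun j => b.repr ⟨Lam ⟨η, hη⟩, LinearMap.mem_range_self _ _⟩ j
    refine ⟨fun i => if h : i.1 < r then c ⟨i.1, h⟩ else 0, ?_⟩
    have hL : Lam (⟨η, hη⟩ - ∑ j, c j • e j) = 0 := by
      rw [map_sub, map_sum]
      have h1 := congrArg Subtype.val
        (b.sum_repr ⟨Lam ⟨η, hη⟩, LinearMap.mem_range_self _ _⟩)
      rw [sub_eq_zero]
      refine h1.symm.trans ?_
      rw [Submodule.coe_sum]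
      refine Finset.sum_congr rfl fun j _ => ?_
      rw [Submodule.coe_smul, map_smul, he j]
    have h2 := inJ_of_Lam _ hL
    convert h2 using 1
    funext n x
    have h3 : ((⟨η, hη⟩ - ∑ j, c j • e j : Alg) : ∀ n : ℕ, (Fin n → Bool) → ℝ) n x
        = η n x - ∑ j, c j * (e j).1 n x := by
      rw [Submodule.coe_sub, Submodule.coe_sum]
      simp [Finset.sum_apply]
    rw [h3]
    congr 1
    have h4 : ∀ i : Fin 4, ((if h : i.1 < r then c ⟨i.1, h⟩ else 0) *
        (if h : i.1 < r then (e ⟨i.1, h⟩).1 else 0 : ∀ n : ℕ, (Fin n → Bool) → ℝ) n x : ℝ)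
        = (fun k : ℕ => if h : k < r then c ⟨k, h⟩ * (e ⟨k, h⟩).1 n x else 0) i := by
      intro i
      by_cases h : i.1 < r
      · simp [h]
      · simp [h]
    simp_rw [h4]
    rw [Fin.sum_univ_eq_sum_range (fun k : ℕ => if h : k < r then c ⟨k, h⟩ * (e ⟨k, h⟩).1 n x else 0) 4]
    have h5 : ∀ j : Fin r, c j * (e j).1 n x
        = (fun k : ℕ => if h : k < r then c ⟨k, h⟩ * (e ⟨k, h⟩).1 n x else 0) j := by
      intro j
      simp
    rw [Finset.sum_congr rfl (fun j _ => h5 j)]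
    rw [Fin.sum_univ_eq_sum_range (fun k : ℕ => if h : k < r then c ⟨k, h⟩ * (e ⟨k, h⟩).1 n x else 0) r]
    symm
    apply Finset.sum_subset
    · intro k hk
      rw [Finset.mem_range] at *
      omega
    · intro k _ hk
      rw [Finset.mem_range] at hk
      simp [hk]

end Pool.Agent.MP_d5803c_pr
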