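import Pool.Agent.Lib.MP_d5803c_pr.Core3
import Pool.Agent.Lib.MP_d5803c_pr.Example

open MeasureTheory ProbabilityTheory Filter Topology

namespace Pool.Agent.MP_d5803c_pr

/-- If the `b_j` are linearly independent, the `a_j` in a finite-rank kernel are bounded. -/
lemma bounded_coeff {S' : Type*} [MeasurableSpace S'] (P : Kernel S' S') [IsMarkovKernel P] {r : ℕ}
    (a : Fin r → S' → ℝ) (b : Fin r → SignedMeasure S')
    (hP : ∀ x B, MeasurableSet B → (P x).real B = ∑ j, a j x * b j B)
    (hb : LinearIndependent ℝ b) (j : Fin r) : ∃ C : ℝ, ∀ x, |a j x| ≤ C := by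
  set U : Submodule ℝ (Fin r → ℝ) :=
    Submodule.span ℝ {v | ∃ B, MeasurableSet B ∧ v = fun i => b i B} with hU
  have htop : U = ⊤ := by
    by_contra hne
    obtain ⟨f, hf0, hf⟩ := Submodule.exists_le_ker_of_lt_top U (lt_top_iff_ne_top.mpr hne)
    apply hf0
    have hfe : ∀ v : Fin r → ℝ, f v = ∑ i, v i * f (Pi.single i 1) := by
      intro v
      conv_lhs => rw [← Finset.univ_sum_single v, map_sum]
      refine Finset.sum_congr rfl fun i _ => ?_
      have : (Pi.single i (v i) : Fin r → ℝ) = v i • Pi.single i (1:ℝ) := by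
        rw [← Pi.single_smul, smul_eq_mul, mul_one]
      rw [this, map_smul, smul_eq_mul]
    have hcomb : ∑ i, f (Pi.single i 1) • b i = 0 := by
      refine VectorMeasure.ext fun B hB => ?_
      have h1 : (fun i => b i B) ∈ U := Submodule.subset_span ⟨B, hB, rfl⟩
      have h2 := LinearMap.mem_ker.mp (hf h1)
      rw [hfe] at h2
      rw [zero_apply, ← h2, FunLike.coe_sum, Finset.sum_apply]
      refine Finset.sum_congr rfl fun i _ => ?_
      rw [smul_apply, smul_eq_mul, mul_comm]
    have hz := Fintype.linearIndependent_iff.mp hb (fun i => f (Pi.single i 1)) hcomb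
    refine LinearMap.ext fun v => ?_
    rw [hfe v]
    simp [hz]
  have key : ∀ v ∈ U, ∃ C : ℝ, ∀ x, |∑ i, a i x * v i| ≤ C := by
    intro v hv
    induction hv using Submodule.span_induction with
    | mem v hv =>
      obtain ⟨B, hB, rfl⟩ := hv
      refine ⟨1, fun x => ?_⟩
      rw [← hP x B hB, abs_of_nonneg measureReal_nonneg]
      exact measureReal_le_one
    | zero => exact ⟨0, fun x => by simp⟩
    | add u v _ _ hu hv =>
      obtain ⟨C, hC⟩ := hu
      obtain ⟨D, hD⟩ := hv
      refine ⟨C + D, fun x => ?_⟩
      have : ∑ i, a i x * (u + v) i = ∑ i, a i x * u i + ∑ i, a i x * v i := by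
        rw [← Finset.sum_add_distrib]
        exact Finset.sum_congr rfl fun i _ => by rw [Pi.add_apply, mul_add]
      rw [this]
      exact (abs_add_le _ _).trans (add_le_add (hC x) (hD x))
    | smul c v _ hv =>
      obtain ⟨C, hC⟩ := hv
      refine ⟨|c| * C, fun x => ?_⟩
      have : ∑ i, a i x * (c • v) i = c * ∑ i, a i x * v i := by
        rw [Finset.mul_sum]
        exact Finset.sum_congr rfl fun i _ => by rw [Pi.smul_apply, smul_eq_mul]; ring
      rw [this, abs_mul]
      exact mul_le_mul_of_nonneg_left (hC x) (abs_nonneg c)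
  obtain ⟨C, hC⟩ := key (Pi.single j 1) (by rw [htop]; trivial)
  refine ⟨C, fun x => ?_⟩
  have := hC x
  simpa [Pi.single_apply] using this

lemma QT_real_ge (n : ℕ) : QT.real {t | n ≤ t} = tail n := by
  have h1 : QT.real {t | n ≤ t} = ∫ t, Set.indicator {t | n ≤ t} (fun _ => (1:ℝ)) t ∂QT := by
    rw [integral_indicator (MeasurableSet.of_discrete)]
    simp
  rw [h1, integral_QT _ 1]
  · have hw : ∀ s, |wt s| ≤ (1 / 2 : ℝ) ^ s := fun s => by
      rw [abs_of_nonneg (wt_nonneg s)]; exact wt_le s
    have hbd : ∀ s, |Set.indicator {t | n ≤ t} (fun _ => (1:ℝ)) s| ≤ 1 := by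
      intro s
      by_cases hs : s ∈ {t | n ≤ t}
      · rw [Set.indicator_of_mem hs]; simp
      · rw [Set.indicator_of_notMem hs]; simp
    have hsum := summable_geo_mul wt hw _ 1 hbd
    rw [← hsum.sum_add_tsum_nat_add n]
    have e1 : ∑ i ∈ Finset.range n, wt i * Set.indicator {t | n ≤ t} (fun _ => (1:ℝ)) i = 0 := by
      refine Finset.sum_eq_zero fun i hi => ?_
      rw [Set.indicator_of_notMem, mul_zero]
      simp only [Set.mem_ofPred_eq, not_le]
      exact Finset.mem_range.mp hi
    have e2 : ∀ i, wt (i + n) * Set.indicator {t | n ≤ t} (fun _ => (1:ℝ)) (i + n) = wt (i + n) := by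
      intro i
      rw [Set.indicator_of_mem, mul_one]
      simp
    simp_rw [e2]
    rw [e1, zero_add, (hasSum_wt_tail n).tsum_eq]
  · intro s
    by_cases hs : s ∈ {t | n ≤ t}
    · rw [Set.indicator_of_mem hs]; simp
    · rw [Set.indicator_of_notMem hs]; simp

theorem not_function_of_finite_rank.{u, v} :
    ¬ IsFunctionOfFiniteRankMarkov.{u, v} QT YT := by
  rintro ⟨S', _, Ω', _, μ, X, p, P, r, φ, hμ, hPm, hX, ⟨a, b, ha, hP, hb, -⟩, hφ, hfdd⟩
  choose Ca hCa using fun j => bounded_coeff P a b hP hb j
  set D : Set S' := φ ⁻¹' {false} with hD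
  have hDm : MeasurableSet D := hφ (MeasurableSet.singleton false)
  set H : ℕ → Set Ω' := fun n => {ω | ∀ i : Fin (n + 1), X i ω ∈ D} with hH
  have hHm : ∀ n, MeasurableSet (H n) := by
    intro n
    have : H n = ⋂ i : Fin (n + 1), (X i) ⁻¹' D := by
      ext ω; simp [hH]
    rw [this]
    exact MeasurableSet.iInter fun i => hX.measurable i hDm
  have hHcyl : ∀ n, H n = {ω | (fun i : Fin (n + 1) => X i ω) ∈ Set.univ.pi fun _ => D} := by
    intro n; ext ω; simp [hH]
  have hcylm : ∀ n : ℕ, MeasurableSet (Set.univ.pi fun _ : Fin (n + 1) => D) := fun n =>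
    MeasurableSet.univ_pi fun _ => hDm
  -- mass of `H n`
  have hmass : ∀ n, μ.real (H n) = tail (n + 1) := by
    intro n
    have h1 := hfdd (n + 1)
    have h2 := congrArg (fun ρ : Measure (Fin (n + 1) → Bool) => ρ.real {fun _ => false}) h1
    have m1 : Measurable (fun (ω : ℕ) (i : Fin (n + 1)) => YT i ω) :=
      measurable_pi_lambda _ fun i => measurable_YT _
    have m2 : Measurable (fun (ω : Ω') (i : Fin (n + 1)) => φ (X i ω)) :=
      measurable_pi_lambda _ fun i => hφ.comp (hX.measurable _)
    rw [Measure.real, Measure.real, Measure.map_apply m1 (MeasurableSet.singleton _),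
      Measure.map_apply m2 (MeasurableSet.singleton _)] at h2
    have s1 : (fun (ω : ℕ) (i : Fin (n + 1)) => YT i ω) ⁻¹' {fun _ => false} = {t | n + 1 ≤ t} := by
      ext t
      simp only [Set.mem_preimage, Set.mem_singleton_iff, Set.mem_ofPred_eq, funext_iff, YT,
        decide_eq_false_iff_not, not_le]
      constructor
      · intro h
        have := h (Fin.last n)
        simp at this
        omega
      · intro h i
        have := i.2
        omega
    have s2 : (fun (ω : Ω') (i : Fin (n + 1)) => φ (X i ω)) ⁻¹' {fun _ => false} = H n := by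
      ext ω
      simp only [Set.mem_preimage, Set.mem_singleton_iff, funext_iff, hH, Set.mem_ofPred_eq, hD]
    rw [s1, s2] at h2
    rw [Measure.real, ← h2]
    exact QT_real_ge (n + 1)
  refine Setup.false (S := S') {
    K := fun x => (2 : NNReal) • (P x).restrict D
    finK := fun x => inferInstance
    r := r + r
    w := Fin.append a (fun j x => - a j x)
    bmw := ?_
    m := Fin.append (fun j => (2 : NNReal) • (b j).toJordanDecomposition.posPart.restrict D)
      (fun j => (2 : NNReal) • (b j).toJordanDecomposition.negPart.restrict D)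
    finm := ?_
    rep := ?_
    M := fun n => ((2 : NNReal) ^ n) • (μ.restrict (H n)).map (X n)
    finM := fun n => ?_
    step := ?_
    mass := ?_ }
  · intro i
    refine Fin.addCases (fun j => ?_) (fun j => ?_) i
    · rw [Fin.append_left]
      exact ⟨ha j, Ca j, fun x => hCa j x⟩
    · rw [Fin.append_right]
      exact ⟨(ha j).neg, Ca j, fun x => by rw [norm_neg]; exact hCa j x⟩
  · intro i
    refine Fin.addCases (fun j => ?_) (fun j => ?_) i
    · rw [Fin.append_left]; infer_instance
    · rw [Fin.append_right]; infer_instance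
  · intro x B hB
    rw [Fin.sum_univ_add]
    simp only [Fin.append_left, Fin.append_right]
    have e : ∀ ρ : Measure S', ((2 : NNReal) • ρ.restrict D).real B = 2 * ρ.real (B ∩ D) := by
      intro ρ
      rw [measureReal_nnreal_smul_apply, measureReal_restrict_apply hB]
      rfl
    simp_rw [e]
    rw [hP x _ (hB.inter hDm), Finset.mul_sum, ← Finset.sum_add_distrib]
    refine Finset.sum_congr rfl fun j _ => ?_
    rw [(b j).apply_eq_posPart_real_sub_negPart_real (hB.inter hDm)]
    ring
  · have : IsFiniteMeasure ((μ.restrict (H n)).map (X n)) := inferInstance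
    infer_instance
  · intro n B hB
    have hXn := hX.measurable n
    have hXn1 := hX.measurable (n + 1)
    rw [measureReal_nnreal_smul_apply, map_measureReal_apply hXn1 hB,
      measureReal_restrict_apply (hXn1 hB), integral_smul_nnreal_measure, integral_map hXn.aemeasurable]
    · have e : ∀ ω, ((2 : NNReal) • (P (X n ω)).restrict D).real B = 2 * (P (X n ω)).real (B ∩ D) := by
        intro ω
        rw [measureReal_nnreal_smul_apply, measureReal_restrict_apply hB]
        rfl
      simp_rw [e]
      rw [integral_const_mul]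
      have h3 := hX.transition n _ (hcylm n) (B ∩ D) (hB.inter hDm)
      have h4 : ∫ ω in H n, (P (X n ω)).real (B ∩ D) ∂μ = μ.real (X (n + 1) ⁻¹' B ∩ H (n + 1)) := by
        simp only [Measure.real]
        rw [integral_toReal]
        · rw [hHcyl n, ← h3]
          congr 2
          ext ω
          simp only [Set.mem_ofPred_eq, Set.mem_pi, Set.mem_univ, true_implies, Set.mem_inter_iff,
            Set.mem_preimage, hH]
          constructor
          · rintro ⟨h5, h6, h7⟩
            refine ⟨h6, fun i => ?_⟩
            refine Fin.lastCases ?_ (fun i => ?_) i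
            · simpa using h7
            · simpa using h5 i
          · rintro ⟨h5, h6⟩
            refine ⟨fun i => by simpa using h6 i.castSucc, h5, by simpa using h6 (Fin.last _)⟩
        · exact ((P.measurable_coe (hB.inter hDm)).comp hXn).aemeasurable
        · exact Eventually.of_forall fun ω => measure_lt_top _ _
      rw [h4, NNReal.smul_def, smul_eq_mul]
      push_cast
      ring
    · have : Measurable fun x => ((2 : NNReal) • (P x).restrict D).real B := by
        have e : (fun x => ((2 : NNReal) • (P x).restrict D).real B)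
            = fun x => 2 * (P x (B ∩ D)).toReal := by
          funext x
          rw [measureReal_nnreal_smul_apply, measureReal_restrict_apply hB]
          rfl
        rw [e]
        exact ((P.measurable_coe (hB.inter hDm)).ennreal_toReal).const_mul 2
      exact this.aestronglyMeasurable
  · intro n
    rw [measureReal_nnreal_smul_apply, map_measureReal_apply (hX.measurable n) MeasurableSet.univ,
      Set.preimage_univ, measureReal_restrict_apply MeasurableSet.univ, Set.univ_inter, hmass n, tail]
    push_cast
    have e : (2:ℝ) ^ n * (1 / 2) ^ (n + 1) = 1 / 2 := by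
      rw [pow_succ, ← mul_assoc, ← mul_pow]; norm_num
    linear_combination ((3 + Real.cos (n + 1)) / 4) * e

end Pool.Agent.MP_d5803c_pr
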