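import Pool.Agent.Lib.MP_d5803c_pr.Defs

/-!
Sanity check: the notion `IsFunctionOfFiniteRankMarkov` is satisfiable (a constant sequence is the
image of the one-point Markov chain, which has rank one).
-/

open MeasureTheory ProbabilityTheory

namespace Pool.Agent.MP_d5803c_pr

example : IsFunctionOfFiniteRankMarkov.{0, 0, 0, 0} (Measure.dirac ()) (fun (_ : ℕ) (_ : Unit) => true) := by
  refine ⟨Unit, inferInstance, Unit, inferInstance, Measure.dirac (), fun _ _ => (), Measure.dirac (),
    Kernel.const Unit (Measure.dirac ()), 1, fun _ => true, inferInstance, inferInstance,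
    ⟨fun n => measurable_const, ?_, ?_⟩,
    ⟨fun _ _ => 1, fun _ => (Measure.dirac ()).toSignedMeasure, fun _ => measurable_const,
      ?_, ?_, ?_⟩, measurable_const, fun n => ?_⟩
  · simp
  · intro n H hH B hB
    by_cases h : (fun _ : Fin (n + 1) => ()) ∈ H
    · have e : {ω : Unit | () ∈ B} = B := by ext ⟨⟩; rfl
      simp [h, Kernel.const_apply, e]
    · simp [h]
  · intro x B hB
    simp [Kernel.const_apply, Measure.toSignedMeasure_apply]
  · rw [Fintype.linearIndependent_iff]
    intro g hg i
    have h1 := congrArg (fun ρ : SignedMeasure Unit => ρ Set.univ) hg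
    have h2 : g 0 = 0 := by simpa [Measure.toSignedMeasure_apply] using h1
    fin_cases i
    exact h2
  · intro c N hN h0 h1
    have h2 : () ∉ N := by
      intro hmem
      have := h0 0
      simp [hmem] at this
    have h3 := h1 () h2
    funext i
    fin_cases i
    simpa using h3
  · rfl

end Pool.Agent.MP_d5803c_pr
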